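import Pool.Agent.W2helper48.JW.LocE

/-!
# Hyperelliptic curves: the sums over primes in the sharp range
-/

set_option autoImplicit false
set_option linter.unusedSectionVars false

namespace Pool.Agent.W2helper48.JW

open Finset Function MeasureTheory ProbabilityTheory
open Q282.CL
open Q282.GK (kbox)
open Q285HS (Sep sm FewBad IV)
open Pool.Agent.Y722.HS (Mon mev form)
open Pool.Agent.W2helper48.JT
open Pool.Agent.W2helper48.JV (tgt final2)
open scoped NNReal

/-- the traces at the good primes -/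
noncomputable def trE (m j p : ℕ) (c : Mon 1 (2 * m) → ZMod p) : ℝ :=
  open Classical in if c ∈ BadD 1 (2 * m) p then 0 else trD 1 (2 * m) j p c

/-- the target -/
noncomputable def tgE (m : ℕ) {r : ℕ} (f : Fin r → ℕ) : ℝ :=
  tgt (2 * m + 1) VD MD (fun _ : Fin r => ()) f - if ∑ i, f i = 2 * m then 1 else 0

/-- **hyperelliptic curves**: for a sign `s = 1` or `s = -1` -/
theorem final_E (m : ℕ) (hm : 1 ≤ m) (s : ℝ) (hs : |s| = 1) (ε : ℝ) (hε : 0 < ε) (hε1 : ε ≤ 1) :
    ∃ κ₀ : ℝ, 0 < κ₀ ∧ ∃ C : ℝ, 1 ≤ C ∧ ∀ (w : ℕ → ℝ), (∀ p, |w p| ≤ 1) → ∀ (N : Mon 1 (2 * m) → ℤ) (L : Mon 1 (2 * m) → ℕ) (T' : ℝ), 0 < T' →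
      (∀ i, T' ≤ L i) →
      ∀ X₀ : ℕ, 1 ≤ X₀ → ∃ E : Finset (Mon 1 (2 * m) → ℤ), E ⊆ kbox N L ∧ (E.card : ℝ) ≤ C * (X₀ : ℝ) ^ (-(ε / 2)) * ∏ i, (L i : ℝ) ∧
      ∀ t ∈ kbox N L, t ∉ E → ∀ Y Y' : ℕ, Y ≤ Y' → X₀ ≤ Y' → (Y' : ℝ) ≤ T' ^ κ₀ → ∀ (r : ℕ) (f : Fin r → ℕ), (∀ i, f i ∈ Icc 1 (2 * m + 1)) →
        ∑ i, f i ≤ 2 * m + 1 →
        |∑ p ∈ WW (BadD 1 (2 * m)) Y Y' t, w p * (∏ i, (s * trD 1 (2 * m) (f i) p (fun y => (t y : ZMod p))) - s ^ r * tgE m f)| ≤
          C * (Y' : ℝ) ^ (1 / 2 + ε / 2) := by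
  classical
  have hsr : ∀ r : ℕ, |s ^ r| = 1 := fun r => by rw [abs_pow, hs, one_pow]
  have hs2 : ∀ r : ℕ, (s ^ r) ^ 2 = 1 := fun r => by rw [← sq_abs, hsr, one_pow]
  obtain ⟨κ₀, hκ₀, C, hC, h⟩ := final2 (Θ := Unit) (fun _ j p c => s * trE m j p c)
    (fun _ r _ f => s ^ r * tgE m f) (2 * (2 * m + 1)) ((2 * (2 * m + 1)) * 1) 2 (by norm_num)
    (fun _ j hj p hp c => by
      have h1 : |trE m j p c| ≤ |trD 1 (2 * m) j p c| := by
        unfold trE
        split_ifs
        · rw [abs_zero]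
          exact abs_nonneg _
        · exact le_rfl
      rw [abs_mul, hs, one_mul]
      exact h1.trans (trD_abs 1 (2 * m) (2 * (2 * m + 1)) j hj p hp c))
    (fun r _ f hf hfD => by
      have hfJ : ∑ i, f i ≤ 2 * m + 1 := by omega
      have hf' : ∀ i, f i ∈ Icc 1 (2 * m + 1) := fun i => by
        have h1 := (mem_Icc.1 (hf i)).1
        have h2 := single_le_sum (f := f) (fun _ _ => Nat.zero_le _) (mem_univ i)
        exact mem_Icc.2 ⟨h1, h2.trans hfJ⟩
      by_cases hr : r = 0
      · subst hr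
        have h1 : tgE m f = 1 := by
          unfold tgE
          have h3 : ∑ i, f i = 0 := by simp
          rw [h3, if_neg (by omega), sub_zero]
          unfold tgt
          refine prod_eq_one fun d _ => ?_
          unfold JV.tg
          have h4 : (univ.filter fun i : Fin 0 => f i = d) = ∅ := by
            ext i
            exact i.elim0
          rw [h4]
          simp
        refine ⟨1, 2, fun p hp => ⟨?_, fun _ => ?_⟩⟩
        · rw [h1]
          simp
        · have : Fact p.Prime := ⟨hp⟩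
          constructor
          · rw [mn_eq (fun (p : ℕ) (c : Mon 1 (2 * m) → ZMod p) => ∏ i : Fin 0, (s * trE m (f i) p c))]
            simp only [univ_eq_empty, prod_empty]
            rw [av_const, h1, pow_zero, mul_one, sub_self, abs_zero]
            positivity
          · rw [mn_eq (fun (p : ℕ) (c : Mon 1 (2 * m) → ZMod p) => (∏ i : Fin 0, (s * trE m (f i) p c)) ^ 2)]
            simp only [univ_eq_empty, prod_empty, one_pow]
            rw [av_const]
      · obtain ⟨C, hC1, hC⟩ := local_E m (2 * m + 1) hm rfl hr f hf' hfJ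
        refine ⟨C ^ 2 + |tgE m f|, 2 * m + 3, fun p hp => ⟨?_, fun hpm => ?_⟩⟩
        · rw [abs_mul, hsr, one_mul]
          nlinarith [sq_nonneg C]
        · have : Fact p.Prime := ⟨hp⟩
          obtain ⟨h1, h2⟩ := hC p hpm
          have hp2 : p ≠ 2 := by omega
          have hCC : C ≤ C ^ 2 + |tgE m f| := by
            have := abs_nonneg (tgE m f)
            nlinarith
          have h3 : ∀ c : Mon 1 (2 * m) → ZMod p, ∏ i, (s * trE m (f i) p c) =
              s ^ r * if c ∈ BadD 1 (2 * m) p then 0 else ∏ i, TD (f i) c := by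
            intro c
            rw [prod_mul_distrib, prod_const, card_univ, Fintype.card_fin]
            congr 1
            unfold trE
            split_ifs with h4
            · rw [prod_const, card_univ, Fintype.card_fin, zero_pow hr]
            · exact prod_congr rfl fun i _ => trD_eq 1 (2 * m) (f i) p hp2 c
          constructor
          · rw [mn_eq (fun (p : ℕ) (c : Mon 1 (2 * m) → ZMod p) => ∏ i, (s * trE m (f i) p c))]
            simp only [h3]
            rw [av_mul, ← mul_sub, abs_mul, hsr, one_mul]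
            rw [mul_one_div] at h1
            exact h1.trans (div_le_div_of_nonneg_right hCC (Real.sqrt_nonneg _))
          · rw [mn_eq (fun (p : ℕ) (c : Mon 1 (2 * m) → ZMod p) => (∏ i, (s * trE m (f i) p c)) ^ 2)]
            simp only [h3, mul_pow, hs2, one_mul]
            have h4 : ∀ c : Mon 1 (2 * m) → ZMod p, (if c ∈ BadD 1 (2 * m) p then 0 else ∏ i, TD (f i) c) ^ 2 ≤ C ^ 2 := by
              intro c
              rw [← sq_abs]
              exact pow_le_pow_left₀ (abs_nonneg _) (h2 c) 2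
            refine (av_mono h4).trans ?_
            rw [av_const]
            have := abs_nonneg (tgE m f)
            linarith) (BadD 1 (2 * m)) _ _ (fewBadD 1 (2 * m) (by omega)) ε hε hε1
  refine ⟨κ₀, hκ₀, C, hC, fun w hw N L T' hT hTL X₀ hX₀ => ?_⟩
  obtain ⟨E, hE1, hE2, hE3⟩ := h w hw N L T' hT hTL X₀ hX₀
  refine ⟨E, hE1, hE2, fun t ht hnt Y Y' hYY hY hYT r f hf hfD => ?_⟩
  have h1 := hE3 t ht hnt Y Y' hYY hY hYT r (fun _ => ()) f (fun i => mem_Icc.2 ⟨(mem_Icc.1 (hf i)).1, by have := (mem_Icc.1 (hf i)).2; omega⟩)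
    (by omega)
  refine le_trans (le_of_eq ?_) h1
  congr 1
  refine sum_congr rfl fun p hp => ?_
  have h2 : (fun x => (t x : ZMod p)) ∉ BadD 1 (2 * m) p := (mem_filter.1 hp).2
  have h3 : ∀ j, trE m j p (fun x => (t x : ZMod p)) = trD 1 (2 * m) j p fun x => (t x : ZMod p) := by
    intro j
    unfold trE
    rw [if_neg h2]
  simp only [h3]

end Pool.Agent.W2helper48.JW
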