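import Pool.Agent.W2helper48.JW.Smo
import Pool.Agent.W2helper48.JV.Loc2

/-!
# The local joint moments for hyperelliptic curves in the sharp range
-/

set_option autoImplicit false
set_option linter.unusedSectionVars false

namespace Pool.Agent.W2helper48.JW

open Finset Function MeasureTheory ProbabilityTheory
open Q282.CL
open Q285HS (Sep sm FewBad)
open Pool.Agent.Y722.HS (Mon mev form)
open Pool.Agent.W2helper48.JT
open Pool.Agent.W2helper48.JV (Good2 YY joint2 tgt)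
open scoped NNReal

/-- the variances (divided by the degree) -/
def VD (_ : ℕ) (_ : Unit) : ℝ≥0 := 1

/-- the means -/
noncomputable def MD (j : ℕ) (_ : Unit) : ℝ := eta j

lemma eta_le (j : ℕ) : |eta j| ≤ 1 := by
  unfold eta
  split_ifs <;> simp

section

variable {p : ℕ} [hp : Fact p.Prime] {δ m : ℕ}

lemma good2_D (h2 : p ≠ 2) (J : ℕ) : Good2 p J (fun _ : Unit => psD p) VD 1 := by
  have hs := sp_pos p
  refine ⟨fun d _ _ z => qc_abs d _, fun d hd _ => (loc_D h2 d (by rw [mem_Icc] at hd; omega)).one, fun d hd θ θ' => ?_⟩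
  have hd0 : d ≠ 0 := by rw [mem_Icc] at hd; omega
  rw [if_pos rfl]
  have h1 : av (fun z => psD p d z * psD p d z) = 1 - 1 / sp p ^ (2 * d) := by
    rw [← (loc_D h2 d hd0).two]
    congr 1
    funext z
    ring
  have h3 : ((VD d θ : ℝ≥0) : ℝ) = 1 := rfl
  rw [h1, h3]
  have h4 : (1 : ℝ) - 1 / sp p ^ (2 * d) - 1 = -(1 / sp p ^ (2 * d)) := by ring
  rw [h4, abs_neg, abs_of_nonneg (by positivity), one_mul]
  exact inv_sp_le (by omega)

/-- the sum over the points of degree `j`, with its mean -/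
noncomputable def XE (j : ℕ) (c : Mon 1 δ → ZMod p) : ℝ := YY (fun _ : Unit => psD p) () j c + MD j ()

lemma near_E (h2 : p ≠ 2) (j : ℕ) (hj : j ≠ 0) (c : Mon 1 δ → ZMod p) : |TD j c - XE j c| ≤ j * (2 + 2 * j) * (1 / sp p) + ZD j c := by
  have h := near_D h2 j (le_refl 1) hj c
  have h1 : TD j c - XE j c = TD j c - XX (psD p) (sD p 1) j c - eta j := by
    unfold XE YY JV.Y1 XX MD sD
    ring
  rw [h1]
  exact h

lemma near_E' (h2 : p ≠ 2) (J j : ℕ) (hj : j ∈ Icc 1 J) (c : Mon 1 δ → ZMod p) : |TD j c - XE j c| ≤ J * (2 + 2 * J) + 2 := by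
  rw [mem_Icc] at hj
  have hs := sp_pos p
  have h1 := near_E h2 j (by omega) c
  have h3 := (ZD_bd (n := 1) j (by omega) c).2
  have h4 : 1 / sp p ≤ 1 := by
    rw [div_le_one hs]
    exact (one_lt_sp p).le
  have h5 : (j : ℝ) ≤ J := by exact_mod_cast hj.2
  have h6 : (0 : ℝ) ≤ j := Nat.cast_nonneg j
  have h7 : (j : ℝ) * (2 + 2 * j) * (1 / sp p) ≤ J * (2 + 2 * J) := by
    have h8 : (j : ℝ) * (2 + 2 * j) ≤ J * (2 + 2 * J) := by nlinarith
    calc (j : ℝ) * (2 + 2 * j) * (1 / sp p) ≤ (j : ℝ) * (2 + 2 * j) * 1 := mul_le_mul_of_nonneg_left h4 (by positivity)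
      _ ≤ _ := by linarith
  linarith

/-- twisting -/
lemma XE_tw (h2 : p ≠ 2) (j : ℕ) (hj : j ≠ 0) (a : ZMod p) (ha : quadraticChar (ZMod p) a = -1) (c : Mon 1 δ → ZMod p) :
    XE j (fun ν => a * c ν) = (-1) ^ j * XE j c := by
  have key : ∀ v ∈ CP 1 p j, psD p j (evd (δ := δ) j v fun ν => a * c ν) = (-1) ^ j * psD p j (evd (δ := δ) j v c) := by
    intro v hv
    unfold psD
    rw [vl_evd (CP_sub hv), vl_evd (CP_sub hv)]
    have h1 : vl (fun ν => a * c ν) v = algebraMap (ZMod p) (Om p) a * vl c v := by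
      unfold vl
      rw [mul_sum]
      refine sum_congr rfl fun ν _ => ?_
      rw [map_mul, mul_assoc]
    have h3 : vl c v ∈ EE p j := by
      rw [← vl_evd (CP_sub hv)]
      exact (evd (δ := δ) j v c).2
    obtain ⟨y, hy⟩ := (mem_range_sg j hj _).2 h3
    rw [h1, ← hy, ← sg_alg j, ← map_mul, qc_sg h2 j hj, qc_sg h2 j hj, map_mul, chi_pow h2 j hj, ha]
    push_cast
    rfl
  unfold XE YY JV.Y1 sm MD
  rw [sum_congr rfl key, ← mul_sum]
  have h1 : eta j = (-1) ^ j * eta j := by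
    unfold eta
    split_ifs with h
    · rw [h.neg_one_pow, one_mul]
    · rw [mul_zero]
  have h3 : ∀ S : ℝ, (j : ℝ) * ((-1) ^ j * S) / sp p ^ (j * 1) + eta j = (-1) ^ j * (j * S / sp p ^ (j * 1) + eta j) := by
    intro S
    rw [mul_add, ← h1]
    ring
  exact h3 _

/-- scaling by a unit -/
def scl (a : ZMod p) (ha : a ≠ 0) : (Mon 1 δ → ZMod p) ≃ (Mon 1 δ → ZMod p) where
  toFun c := fun ν => a * c ν
  invFun c := fun ν => a⁻¹ * c ν
  left_inv c := by
    funext ν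
    show a⁻¹ * (a * c ν) = c ν
    rw [← mul_assoc, inv_mul_cancel₀ ha, one_mul]
  right_inv c := by
    funext ν
    show a * (a⁻¹ * c ν) = c ν
    rw [← mul_assoc, mul_inv_cancel₀ ha, one_mul]

lemma exists_non (h2 : p ≠ 2) : ∃ a : ZMod p, a ≠ 0 ∧ quadraticChar (ZMod p) a = -1 := by
  have hch : ringChar (ZMod p) ≠ 2 := by
    rw [ZMod.ringChar_zmod_n]
    exact h2
  obtain ⟨ν, hν⟩ := FiniteField.exists_nonsquare hch
  refine ⟨ν, ?_, quadraticChar_neg_one_iff_not_isSquare.2 hν⟩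
  rintro rfl
  exact hν ⟨0, by ring⟩

/-- an odd function has mean zero -/
lemma av_odd (a : ZMod p) (ha : a ≠ 0) (g : (Mon 1 δ → ZMod p) → ℝ) (hg : ∀ c, g (fun ν => a * c ν) = - g c) : av g = 0 := by
  have h1 := av_equiv (scl (δ := δ) a ha) g
  have h3 : (fun c => g (scl a ha c)) = fun c => (-1) * g c := by
    funext c
    rw [neg_one_mul]
    exact hg c
  rw [h3, av_mul] at h1
  linarith

lemma prod_tw {r : ℕ} (f : Fin r → ℕ) (g : Fin r → ℝ) : ∏ i, ((-1) ^ f i * g i) = (-1) ^ (∑ i, f i) * ∏ i, g i := by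
  rw [prod_mul_distrib, prod_pow_eq_pow_sum]

/-- goodness is invariant under scaling -/
lemma bad_scl (a : ZMod p) (ha : a ≠ 0) (c : Mon 1 δ → ZMod p) : (fun ν => a * c ν) ∈ BadD 1 δ p ↔ c ∈ BadD 1 δ p := by
  have key : ∀ (b : ZMod p), b ≠ 0 → ∀ c : Mon 1 δ → ZMod p, c ∈ BadD 1 δ p → (fun ν => b * c ν) ∈ BadD 1 δ p := by
    intro b hb c hc
    rcases hc with hc | hc
    · exact Or.inl hc
    · right
      intro hall
      apply hc
      intro hF x hx h0
      have hform : ∀ (hF' : Fact p.Prime), MvPolynomial.map (algebraMap (ZMod p) (AlgebraicClosure (ZMod p))) (form fun ν => b * c ν) =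
          MvPolynomial.C (algebraMap (ZMod p) (AlgebraicClosure (ZMod p)) b) *
            MvPolynomial.map (algebraMap (ZMod p) (AlgebraicClosure (ZMod p))) (form c) := by
        intro hF'
        unfold form
        rw [map_sum, map_sum, mul_sum]
        refine sum_congr rfl fun ν _ => ?_
        simp only [map_mul, MvPolynomial.map_C, mul_assoc]
      have h1 := hall hF x hx (by rw [hform hF, map_mul, h0, mul_zero])
      obtain ⟨i, hi⟩ := h1
      refine ⟨i, fun h3 => hi ?_⟩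
      rw [hform hF, Derivation.leibniz]
      simp [h3]
  refine ⟨fun h => ?_, key a ha c⟩
  have h1 := key a⁻¹ (inv_ne_zero ha) _ h
  have h3 : (fun ν => a⁻¹ * (a * c ν)) = c := by
    funext ν
    rw [← mul_assoc, inv_mul_cancel₀ ha, one_mul]
  rwa [h3] at h1

/-- **the mean over the constant multiples of squares** -/
lemma av_Sq (h2 : p ≠ 2) (G : (Mon 1 (2 * m) → ZMod p) → ℝ) (A B : ℝ) (hA : 0 ≤ A) (hB : 0 ≤ B) (h0 : |G 0| ≤ B)
    (hG : ∀ c ∈ Sq p (2 * m), c ≠ 0 → |G c - A| ≤ B) [DecidablePred fun c => c ∈ Sq p (2 * m)] :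
    |av (fun c : Mon 1 (2 * m) → ZMod p => if c ∈ Sq p (2 * m) then G c else 0) - A / sp p ^ (2 * m)| ≤ (2 * B + A / sp p) / sp p ^ (2 * m) := by
  classical
  have hs := sp_pos p
  obtain ⟨S, hS⟩ : ∃ S : Finset (Mon 1 (2 * m) → ZMod p), S = univ.filter fun c => c ∈ Sq p (2 * m) ∧ c ≠ 0 := ⟨_, rfl⟩
  have hSm : ∀ c, c ∈ S ↔ c ∈ Sq p (2 * m) ∧ c ≠ 0 := fun c => by rw [hS, mem_filter]; simp
  have hc := card_Sq h2 S hSm
  have hcR : (S.card : ℝ) = sp p ^ (2 * (m + 1)) - 1 := by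
    have h3 : ((S.card : ℝ)) + 1 = (p : ℝ) ^ (m + 1) := by exact_mod_cast hc
    rw [p_pow] at h3
    linarith
  have hsum : ∑ c : Mon 1 (2 * m) → ZMod p, (if c ∈ Sq p (2 * m) then G c else 0) = G 0 + ∑ c ∈ S, G c := by
    rw [← sum_filter]
    have h3 : univ.filter (fun c => c ∈ Sq p (2 * m)) = insert 0 S := by
      ext c
      rw [mem_filter, mem_insert, hSm]
      by_cases hc : c = 0
      · rw [hc]
        simp [zero_Sq]
      · simp [hc]
    rw [h3, sum_insert fun h => ((hSm 0).1 h).2 rfl]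
  have hcard : ((Fintype.card (Mon 1 (2 * m) → ZMod p) : ℕ) : ℝ) = sp p ^ (2 * (2 * m + 1)) := by
    rw [card_vecs]
    push_cast
    rw [p_pow]
  unfold av
  rw [hsum, hcard]
  obtain ⟨E, hE⟩ : ∃ E : ℝ, E = ∑ c ∈ S, (G c - A) := ⟨_, rfl⟩
  have hEs : ∑ c ∈ S, G c = E + (sp p ^ (2 * (m + 1)) - 1) * A := by
    rw [hE, sum_sub_distrib, sum_const, nsmul_eq_mul, hcR]
    ring
  have hEb : |E| ≤ sp p ^ (2 * (m + 1)) * B := by
    rw [hE]
    refine (abs_sum_le_sum_abs _ _).trans ?_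
    have h3 : ∀ c ∈ S, |G c - A| ≤ B := fun c hc => hG c ((hSm c).1 hc).1 ((hSm c).1 hc).2
    refine (sum_le_sum h3).trans ?_
    rw [sum_const, nsmul_eq_mul, hcR]
    nlinarith
  have h4 : sp p ^ (2 * (2 * m + 1)) = sp p ^ (2 * (m + 1)) * sp p ^ (2 * m) := by
    rw [← pow_add]
    congr 1
    ring
  have h5 : (0 : ℝ) < sp p ^ (2 * (m + 1)) := by positivity
  have h6 : (0 : ℝ) < sp p ^ (2 * m) := by positivity
  have h7 : (G 0 + (E + (sp p ^ (2 * (m + 1)) - 1) * A)) / sp p ^ (2 * (2 * m + 1)) - A / sp p ^ (2 * m) =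
      (G 0 + E - A) / sp p ^ (2 * (m + 1)) / sp p ^ (2 * m) := by
    rw [h4]
    field_simp
    ring
  rw [hEs, h7, abs_div, abs_of_pos h6]
  refine div_le_div_of_nonneg_right ?_ h6.le
  rw [abs_div, abs_of_pos h5]
  have h8 : |G 0 + E - A| ≤ B + sp p ^ (2 * (m + 1)) * B + A := by
    refine (abs_sub _ _).trans ?_
    rw [abs_of_nonneg hA]
    have := abs_add_le (G 0) E
    linarith
  have h9 : 1 ≤ sp p ^ (2 * (m + 1)) := one_le_pow₀ (one_lt_sp p).le
  have h10 : sp p ≤ sp p ^ (2 * (m + 1)) := by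
    calc sp p = sp p ^ 1 := (pow_one _).symm
      _ ≤ _ := pow_le_pow_right₀ (one_lt_sp p).le (by omega)
  rw [div_le_iff₀ h5]
  refine h8.trans ?_
  have h11 : A ≤ A / sp p * sp p ^ (2 * (m + 1)) := by
    rw [div_mul_eq_mul_div, le_div_iff₀ hs]
    exact mul_le_mul_of_nonneg_left h10 hA
  nlinarith

end

end Pool.Agent.W2helper48.JW
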