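import Pool.Agent.W2helper48.JW.Loc

/-!
# The local joint moments for hyperelliptic curves in the sharp range: the theorem
-/

set_option autoImplicit false
set_option linter.unusedSectionVars false

namespace Pool.Agent.W2helper48.JW

open Finset Function MeasureTheory ProbabilityTheory Polynomial
open Q282.CL
open Q285HS (Sep sm FewBad)
open Pool.Agent.Y722.HS (Mon mev form)
open Pool.Agent.W2helper48.JT
open Pool.Agent.W2helper48.JV (Good2 YY joint2 tgt)
open scoped NNReal

section

variable {p : ℕ} [hp : Fact p.Prime] {δ m : ℕ}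

lemma ZD_mean (j : ℕ) (hj : j ≠ 0) (hjD : j ≤ δ + 1) : av (fun c : Mon 1 δ → ZMod p => ZD j c) ≤ 3 * (1 / sp p) := by
  have hs := sp_pos p
  have h1 := ZD_av (n := 1) (p := p) j hj hjD
  have h2' : ∀ c : Mon 1 δ → ZMod p, ZD j c ≤ (1 / 2) * (sp p * ZD j c ^ 2) + (1 / 2) * (1 / sp p) := by
    intro c
    have h3 : 0 ≤ sp p * (ZD j c - 1 / sp p) ^ 2 := by positivity
    have h4 : sp p * (ZD j c - 1 / sp p) ^ 2 = sp p * ZD j c ^ 2 - 2 * ZD j c + 1 / sp p := by
      field_simp
      ring
    linarith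
  refine (av_mono h2').trans ?_
  rw [av_add, av_mul, av_mul, av_const]
  have h3 : sp p * av (fun c : Mon 1 δ → ZMod p => ZD j c ^ 2) ≤ sp p * (4 * (1 / sp p) ^ 2) := mul_le_mul_of_nonneg_left h1 hs.le
  have h4 : sp p * (4 * (1 / sp p) ^ 2) = 4 * (1 / sp p) := by field_simp
  rw [h4] at h3
  have h5 : 0 < 1 / sp p := by positivity
  linarith

lemma not_Sq (hm : 1 ≤ m) {c : Mon 1 (2 * m) → ZMod p} (hc : c ∉ BadD 1 (2 * m) p) : c ∉ Sq p (2 * m) :=
  fun h => hc (Or.inr (Sq_bad hm c h))

/-- the values on the constant multiples of squares -/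
lemma XE_Sq (h2 : p ≠ 2) (J : ℕ) {r : ℕ} (f : Fin r → ℕ) (hf : ∀ i, f i ∈ Icc 1 J) (hW : Even (∑ i, f i)) (c : Mon 1 (2 * m) → ZMod p)
    (hc : c ∈ Sq p (2 * m)) (hc0 : c ≠ 0) (E : ℝ) (hE : E = m + 1 + (J * (2 + 2 * J) + 2)) :
    |∏ i, XE (f i) c - sp p ^ (∑ i, f i)| ≤ r * (E * (1 + E) ^ r) * sp p ^ (∑ i, f i - 1) := by
  classical
  have hs := sp_pos p
  have hs1 := (one_lt_sp p).le
  have hJ0 : (0 : ℝ) ≤ J := Nat.cast_nonneg J
  have hm0 : (0 : ℝ) ≤ m := Nat.cast_nonneg m
  have hE0 : 0 ≤ E := by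
    rw [hE]
    positivity
  obtain ⟨a, h, hah⟩ := hc
  have hpc : pol c ≠ 0 := by
    intro h1
    apply hc0
    apply pol_inj
    rw [h1, pol_zero]
  have ha0 : a ≠ 0 := by
    rintro rfl
    apply hpc
    rw [hah]
    simp
  have hh0 : h ≠ 0 := by
    rintro rfl
    apply hpc
    rw [hah]
    simp
  have hdeg : h.natDegree ≤ m := by
    have h3 : (pol c).natDegree = 2 * h.natDegree := by
      rw [hah, natDegree_C_mul ha0, natDegree_pow]
    have := pol_deg c
    omega
  obtain ⟨χ, hχ⟩ : ∃ χ : ℝ, χ = ((quadraticChar (ZMod p) a : ℤ) : ℝ) := ⟨_, rfl⟩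
  have hχ2 : χ ^ 2 = 1 := by
    rw [hχ]
    exact_mod_cast quadraticChar_sq_one ha0
  have hχ1 : |χ| = 1 := by
    have : |χ| ^ 2 = 1 := by rw [sq_abs, hχ2]
    exact (pow_eq_one_iff_of_nonneg (abs_nonneg _) two_ne_zero).1 this
  obtain ⟨b, hb⟩ : ∃ b : Fin r → ℝ, b = fun i => χ ^ f i * sp p ^ f i := ⟨_, rfl⟩
  have hbd : ∀ i, |XE (f i) c - b i| ≤ E := by
    intro i
    have hi := hf i
    have h3 := near_E' h2 J (f i) hi c
    have h4 := TD_sq h2 (f i) (by rw [mem_Icc] at hi; omega) c a h hah hh0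
    rw [← hχ] at h4
    have h5 : (h.natDegree : ℝ) ≤ m := by exact_mod_cast hdeg
    have h6 : XE (f i) c - b i = -(TD (f i) c - XE (f i) c) + (TD (f i) c - χ ^ f i * sp p ^ f i) := by
      rw [hb]
      ring
    rw [h6, hE]
    refine (abs_add_le _ _).trans ?_
    rw [abs_neg]
    linarith
  have hprod : ∏ i, b i = sp p ^ (∑ i, f i) := by
    rw [hb, prod_mul_distrib, prod_pow_eq_pow_sum, prod_pow_eq_pow_sum]
    obtain ⟨k, hk⟩ := hW
    rw [hk, ← two_mul, pow_mul, hχ2, one_pow, one_mul]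
  have hbR : ∀ i ∈ (univ : Finset (Fin r)), |b i| ≤ (1 + E) * sp p ^ f i := by
    intro i _
    rw [hb]
    dsimp only
    rw [abs_mul, abs_pow, hχ1, one_pow, one_mul, abs_of_nonneg (by positivity)]
    have : 0 ≤ E * sp p ^ f i := by positivity
    linarith
  have hXR : ∀ i ∈ (univ : Finset (Fin r)), |XE (f i) c| ≤ (1 + E) * sp p ^ f i := by
    intro i _
    have h3 := hbd i
    have h4 : |b i| = sp p ^ f i := by
      rw [hb]
      dsimp only
      rw [abs_mul, abs_pow, hχ1, one_pow, one_mul, abs_of_nonneg (by positivity)]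
    have h5 := abs_sub_abs_le_abs_sub (XE (f i) c) (b i)
    have h6 : 1 ≤ sp p ^ f i := one_le_pow₀ hs1
    have h7 : E ≤ E * sp p ^ f i := le_mul_of_one_le_right hE0 h6
    linarith
  have key := prod_near univ (fun i => XE (f i) c) b (fun i => (1 + E) * sp p ^ f i) hXR hbR
  rw [hprod] at key
  refine key.trans ?_
  have h3 : ∀ k ∈ (univ : Finset (Fin r)), |XE (f k) c - b k| * ∏ i ∈ univ.erase k, ((1 + E) * sp p ^ f i) ≤
      E * (1 + E) ^ r * sp p ^ (∑ i, f i - 1) := by
    intro k _
    have h4 : ∏ i ∈ univ.erase k, ((1 + E) * sp p ^ f i) ≤ (1 + E) ^ r * sp p ^ (∑ i, f i - 1) := by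
      rw [prod_mul_distrib, prod_const, prod_pow_eq_pow_sum]
      refine mul_le_mul ?_ ?_ (by positivity) (by positivity)
      · refine pow_le_pow_right₀ (by linarith) ?_
        refine (card_erase_le).trans ?_
        rw [card_univ, Fintype.card_fin]
      · refine pow_le_pow_right₀ hs1 ?_
        have h5 := add_sum_erase univ f (mem_univ k)
        have h6 := (mem_Icc.1 (hf k)).1
        omega
    calc |XE (f k) c - b k| * ∏ i ∈ univ.erase k, ((1 + E) * sp p ^ f i) ≤ E * ((1 + E) ^ r * sp p ^ (∑ i, f i - 1)) :=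
          mul_le_mul (hbd k) h4 (prod_nonneg fun i _ => by positivity) hE0
      _ = _ := by ring
  refine (sum_le_sum h3).trans (le_of_eq ?_)
  rw [sum_const, card_univ, Fintype.card_fin, nsmul_eq_mul]
  ring

lemma TD_zero (h2 : p ≠ 2) (j : ℕ) (hj : j ≠ 0) : TD j (0 : Mon 1 δ → ZMod p) = 0 := by
  rw [TD_eq h2 j hj, pol_zero]
  simp [qc_zero]

end

/-- **the local joint moments in the sharp range** -/
theorem local_E (m J : ℕ) (hm : 1 ≤ m) (hJ : J = 2 * m + 1) {r : ℕ} (hr : r ≠ 0) (f : Fin r → ℕ) (hf : ∀ i, f i ∈ Icc 1 J) (hfD : ∑ i, f i ≤ 2 * m + 1) :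
    ∃ C : ℝ, 1 ≤ C ∧ ∀ (p : ℕ) [Fact p.Prime] [DecidablePred fun c => c ∈ BadD 1 (2 * m) p], 2 * m + 3 ≤ p →
      |av (fun c : Mon 1 (2 * m) → ZMod p => if c ∈ BadD 1 (2 * m) p then 0 else ∏ i, TD (f i) c) -
        (tgt J VD MD (fun _ : Fin r => ()) f - if ∑ i, f i = 2 * m then 1 else 0)| ≤ C * (1 / sp p) ∧
      ∀ c : Mon 1 (2 * m) → ZMod p, |if c ∈ BadD 1 (2 * m) p then 0 else ∏ i, TD (f i) c| ≤ C := by
  classical
  have hW1 : 1 ≤ ∑ i, f i := by
    have h1 : ∃ i : Fin r, True := ⟨⟨0, Nat.pos_of_ne_zero hr⟩, trivial⟩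
    obtain ⟨i, _⟩ := h1
    exact le_trans (mem_Icc.1 (hf i)).1 (single_le_sum (f := f) (fun _ _ => Nat.zero_le _) (mem_univ i))
  obtain ⟨K₀, hK₀1, hK₀⟩ := joint2 1 (2 * m) J le_rfl VD MD 1 le_rfl (fun d _ θ => le_refl (1 : ℝ)) (fun d _ θ => eta_le d)
    (fun _ : Fin r => ()) f hf (by omega)
  have hBad := fewBadD 1 (2 * m) (by omega)
  obtain ⟨C₀, hC₀⟩ : ∃ C₀ : ℝ, C₀ = |((Pool.Agent.Y722.HS.Delta 1 (2 * m)).totalDegree : ℝ)| := ⟨_, rfl⟩
  have hC₀0 : 0 ≤ C₀ := by
    rw [hC₀]
    exact abs_nonneg _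
  have hm0 : (0 : ℝ) ≤ m := Nat.cast_nonneg m
  have hJ0 : (0 : ℝ) ≤ J := Nat.cast_nonneg J
  have hr0 : (0 : ℝ) ≤ r := Nat.cast_nonneg r
  obtain ⟨A, hA⟩ : ∃ A : ℝ, A = 2 * m + 1 := ⟨_, rfl⟩
  obtain ⟨K, hK⟩ : ∃ K : ℝ, K = J * (2 + 2 * J) + 2 := ⟨_, rfl⟩
  obtain ⟨R, hR⟩ : ∃ R : ℝ, R = A + K := ⟨_, rfl⟩
  obtain ⟨E, hE⟩ : ∃ E : ℝ, E = m + 1 + (J * (2 + 2 * J) + 2) := ⟨_, rfl⟩
  have hA1 : 1 ≤ A := by
    rw [hA]
    linarith
  have hK1 : 1 ≤ K := by
    rw [hK]
    nlinarith
  have hR1 : 1 ≤ R := by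
    rw [hR]
    linarith
  have hE0 : 0 ≤ E := by
    rw [hE]
    positivity
  obtain ⟨B, hB⟩ : ∃ B : ℝ, B = r * (E * (1 + E) ^ r) + K ^ r := ⟨_, rfl⟩
  have hB0 : 0 ≤ B := by
    rw [hB]
    positivity
  obtain ⟨C, hC⟩ : ∃ C : ℝ, C = K₀ + A ^ r + (2 * B + 1) + 1 + R ^ r * (r * (K + 3)) + A ^ r * C₀ := ⟨_, rfl⟩
  have hAr : 0 ≤ A ^ r := by positivity
  have hRr : 0 ≤ R ^ r * (r * (K + 3)) := by positivity
  have hAC : 0 ≤ A ^ r * C₀ := by positivity
  refine ⟨C, by rw [hC]; linarith, fun p hp hdec hpm => ?_⟩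
  have hs := sp_pos p
  have hs1 := (one_lt_sp p).le
  have hε0 : 0 < 1 / sp p := by positivity
  have h2 : p ≠ 2 := by omega
  obtain ⟨g, hg⟩ : ∃ g : (Mon 1 (2 * m) → ZMod p) → ℝ, g = fun c => if c ∈ BadD 1 (2 * m) p then 0 else ∏ i, TD (f i) c := ⟨_, rfl⟩
  have hTDA : ∀ c : Mon 1 (2 * m) → ZMod p, c ∉ Sq p (2 * m) → ∀ i, |TD (f i) c| ≤ A := by
    intro c hc i
    have h3 := weil_T h2 (f i) (by have := hf i; rw [mem_Icc] at this; omega) c hc
    rw [hA]
    push_cast at h3
    exact h3
  have hprodA : ∀ c : Mon 1 (2 * m) → ZMod p, c ∉ Sq p (2 * m) → |∏ i, TD (f i) c| ≤ A ^ r := by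
    intro c hc
    rw [abs_prod]
    refine (prod_le_prod (fun _ _ => abs_nonneg _) fun i _ => hTDA c hc i).trans ?_
    rw [prod_const, card_univ, Fintype.card_fin]
  have hsup : ∀ c, |g c| ≤ A ^ r := by
    intro c
    rw [hg]
    dsimp only
    split_ifs with h
    · rw [abs_zero]
      exact hAr
    · exact hprodA c (not_Sq hm h)
  have e1 : |av (fun c : Mon 1 (2 * m) → ZMod p => ∏ i, XE (f i) c) - tgt J VD MD (fun _ : Fin r => ()) f| ≤ K₀ * (1 / sp p) :=
    hK₀ p (fun _ : Unit => psD p) (good2_D h2 J)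
  have hAC' : A ^ r ≤ C := by
    rw [hC]
    linarith
  have goal1 : |av g - (tgt J VD MD (fun _ : Fin r => ()) f - if ∑ i, f i = 2 * m then 1 else 0)| ≤ C * (1 / sp p) := by
    by_cases hW : Even (∑ i, f i)
    · -- even weight
      have hW2 : ∑ i, f i ≤ 2 * m := by
        obtain ⟨k, hk⟩ := hW
        omega
      obtain ⟨g1, hg1⟩ : ∃ g1 : (Mon 1 (2 * m) → ZMod p) → ℝ, g1 = fun c => if c ∈ Sq p (2 * m) then ∏ i, XE (f i) c else 0 := ⟨_, rfl⟩
      obtain ⟨g2, hg2⟩ : ∃ g2 : (Mon 1 (2 * m) → ZMod p) → ℝ, g2 = fun c => if c ∈ Sq p (2 * m) then 0 else ∏ i, TD (f i) c - ∏ i, XE (f i) c := ⟨_, rfl⟩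
      obtain ⟨g3, hg3⟩ : ∃ g3 : (Mon 1 (2 * m) → ZMod p) → ℝ, g3 = fun c => if c ∈ Sq p (2 * m) then 0 else
        if c ∈ BadD 1 (2 * m) p then ∏ i, TD (f i) c else 0 := ⟨_, rfl⟩
      have hdecomp : g = fun c => ((∏ i, XE (f i) c - g1 c) + g2 c) - g3 c := by
        funext c
        rw [hg, hg1, hg2, hg3]
        dsimp only
        by_cases h3 : c ∈ Sq p (2 * m)
        · have h4 : c ∈ BadD 1 (2 * m) p := Or.inr (Sq_bad hm c h3)
          rw [if_pos h4, if_pos h3, if_pos h3, if_pos h3]
          ring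
        · rw [if_neg h3, if_neg h3, if_neg h3]
          by_cases h4 : c ∈ BadD 1 (2 * m) p
          · rw [if_pos h4, if_pos h4]
            ring
          · rw [if_neg h4, if_neg h4]
            ring
      have hav : av g = av (fun c : Mon 1 (2 * m) → ZMod p => ∏ i, XE (f i) c) - av g1 + av g2 - av g3 := by
        rw [hdecomp, av_sub, av_add, av_sub]
      -- the squares
      have b1 : |av g1 - if ∑ i, f i = 2 * m then (1 : ℝ) else 0| ≤ (2 * B + 1 + 1) * (1 / sp p) := by
        have hG0 : |∏ i, XE (f i) (0 : Mon 1 (2 * m) → ZMod p)| ≤ B * sp p ^ (∑ i, f i - 1) := by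
          rw [abs_prod]
          have h3 : ∀ i ∈ (univ : Finset (Fin r)), |XE (f i) (0 : Mon 1 (2 * m) → ZMod p)| ≤ K := by
            intro i _
            have h4 := near_E' h2 J (f i) (hf i) (0 : Mon 1 (2 * m) → ZMod p)
            rw [TD_zero h2 (f i) (by have := hf i; rw [mem_Icc] at this; omega), zero_sub, abs_neg] at h4
            rw [hK]
            exact h4
          refine (prod_le_prod (fun _ _ => abs_nonneg _) h3).trans ?_
          rw [prod_const, card_univ, Fintype.card_fin]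
          have h5 : 1 ≤ sp p ^ (∑ i, f i - 1) := one_le_pow₀ hs1
          have h6 : K ^ r ≤ B := by
            rw [hB]
            have : 0 ≤ (r : ℝ) * (E * (1 + E) ^ r) := by positivity
            linarith
          exact h6.trans (le_mul_of_one_le_right hB0 h5)
        have h3 := av_Sq h2 (fun c => ∏ i, XE (f i) c) (sp p ^ (∑ i, f i)) (B * sp p ^ (∑ i, f i - 1)) (by positivity) (by positivity) hG0
          (fun c hc hc0 => by
            refine (XE_Sq h2 J f hf hW c hc hc0 E hE).trans ?_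
            refine mul_le_mul_of_nonneg_right ?_ (by positivity)
            rw [hB]
            have : 0 ≤ K ^ r := by positivity
            linarith)
        have h4 : sp p ^ (∑ i, f i) = sp p ^ (∑ i, f i - 1) * sp p := by
          rw [← pow_succ]
          congr 1
          omega
        have h5 : (2 * (B * sp p ^ (∑ i, f i - 1)) + sp p ^ (∑ i, f i) / sp p) / sp p ^ (2 * m) ≤ (2 * B + 1) * (1 / sp p) := by
          have h6 : (2 * (B * sp p ^ (∑ i, f i - 1)) + sp p ^ (∑ i, f i) / sp p) / sp p ^ (2 * m) =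
              (2 * B + 1) * (sp p ^ (∑ i, f i - 1) / sp p ^ (2 * m)) := by
            rw [h4]
            field_simp
          rw [h6]
          exact mul_le_mul_of_nonneg_left (sp_div_le (by omega)) (by linarith)
        have h6 : |sp p ^ (∑ i, f i) / sp p ^ (2 * m) - if ∑ i, f i = 2 * m then (1 : ℝ) else 0| ≤ 1 / sp p := by
          split_ifs with h7
          · rw [h7, div_self (by positivity), sub_self, abs_zero]
            exact hε0.le
          · rw [sub_zero, abs_of_nonneg (by positivity)]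
            exact sp_div_le (by omega)
        rw [hg1]
        have h7 := abs_sub_le (av fun c => if c ∈ Sq p (2 * m) then ∏ i, XE (f i) c else 0) (sp p ^ (∑ i, f i) / sp p ^ (2 * m))
          (if ∑ i, f i = 2 * m then (1 : ℝ) else 0)
        refine h7.trans ?_
        have h8 := h3.trans h5
        have h9 : (2 * B + 1 + 1) * (1 / sp p) = (2 * B + 1) * (1 / sp p) + 1 / sp p := by ring
        rw [h9]
        exact add_le_add h8 h6
      -- the difference
      have b2 : |av g2| ≤ R ^ r * (r * (K + 3)) * (1 / sp p) := by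
        refine (abs_av_le _).trans ?_
        have h3 : ∀ c, |g2 c| ≤ R ^ r * ∑ k : Fin r, (K * (1 / sp p) + ZD (f k) c) := by
          intro c
          have hZ0 : ∀ k : Fin r, 0 ≤ ZD (f k) c := fun k => (ZD_bd (n := 1) (f k) (by have := hf k; rw [mem_Icc] at this; omega) c).1
          rw [hg2]
          dsimp only
          split_ifs with h4
          · rw [abs_zero]
            refine mul_nonneg (by positivity) (sum_nonneg fun k _ => ?_)
            have := hZ0 k
            positivity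
          · have h5 : ∀ i ∈ (univ : Finset (Fin r)), |TD (f i) c| ≤ R := fun i _ => by
              rw [hR]
              linarith [hTDA c h4 i]
            have h6 : ∀ i ∈ (univ : Finset (Fin r)), |XE (f i) c| ≤ R := by
              intro i _
              have h7 := near_E' h2 J (f i) (hf i) c
              have h8 := hTDA c h4 i
              have h9 := abs_sub_abs_le_abs_sub (XE (f i) c) (TD (f i) c)
              rw [abs_sub_comm] at h9
              rw [hR, hK]
              linarith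
            refine (prod_near univ (fun i => TD (f i) c) (fun i => XE (f i) c) (fun _ => R) h5 h6).trans ?_
            rw [mul_sum]
            refine sum_le_sum fun k _ => ?_
            have h7 : |TD (f k) c - XE (f k) c| ≤ K * (1 / sp p) + ZD (f k) c := by
              have hk := hf k
              rw [mem_Icc] at hk
              refine (near_E h2 (f k) (by omega) c).trans (add_le_add (mul_le_mul_of_nonneg_right ?_ hε0.le) le_rfl)
              have h8 : ((f k : ℕ) : ℝ) ≤ J := by exact_mod_cast hk.2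
              have h9 : (0 : ℝ) ≤ (f k : ℕ) := Nat.cast_nonneg _
              rw [hK]
              nlinarith
            have h8 : ∏ i ∈ (univ : Finset (Fin r)).erase k, R ≤ R ^ r := by
              rw [prod_const]
              refine pow_le_pow_right₀ hR1 (card_erase_le.trans ?_)
              rw [card_univ, Fintype.card_fin]
            rw [mul_comm (R ^ r)]
            exact mul_le_mul h7 h8 (prod_nonneg fun _ _ => by linarith) ((abs_nonneg _).trans h7)
        refine (av_mono h3).trans ?_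
        rw [av_mul, av_sum]
        have h4 : ∀ k ∈ (univ : Finset (Fin r)), av (fun c : Mon 1 (2 * m) → ZMod p => K * (1 / sp p) + ZD (f k) c) ≤ (K + 3) * (1 / sp p) := by
          intro k _
          have hk := hf k
          rw [mem_Icc] at hk
          rw [av_add, av_const]
          have := ZD_mean (p := p) (δ := 2 * m) (f k) (by omega) (by omega)
          linarith
        have h5 := sum_le_sum h4
        rw [sum_const, card_univ, Fintype.card_fin, nsmul_eq_mul] at h5
        calc R ^ r * ∑ k : Fin r, av (fun c : Mon 1 (2 * m) → ZMod p => K * (1 / sp p) + ZD (f k) c) ≤ R ^ r * (r * ((K + 3) * (1 / sp p))) :=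
              mul_le_mul_of_nonneg_left h5 (by positivity)
          _ = _ := by ring
      -- the singular forms
      have b3 : |av g3| ≤ A ^ r * C₀ * (1 / sp p) := by
        refine (abs_av_le _).trans ?_
        have h3 : ∀ c, |g3 c| ≤ A ^ r * if c ∈ BadD 1 (2 * m) p then (1 : ℝ) else 0 := by
          intro c
          rw [hg3]
          dsimp only
          by_cases h4 : c ∈ Sq p (2 * m)
          · rw [if_pos h4, abs_zero]
            refine mul_nonneg hAr ?_
            split_ifs <;> norm_num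
          · rw [if_neg h4]
            split_ifs with h5
            · rw [mul_one]
              exact hprodA c h4
            · rw [abs_zero, mul_zero]
        refine (av_mono h3).trans ?_
        rw [av_mul, mul_assoc]
        refine mul_le_mul_of_nonneg_left ?_ hAr
        have h4 := hBad p hp.out (by omega)
        have h5 : av (fun c : Mon 1 (2 * m) → ZMod p => if c ∈ BadD 1 (2 * m) p then (1 : ℝ) else 0) = (BadD 1 (2 * m) p).ncard / (p : ℝ) ^ Fintype.card (Mon 1 (2 * m)) := by
          rw [av_res]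
          congr 1
          rw [← sum_filter, sum_const, nsmul_eq_mul, mul_one]
          have h6 : (BadD 1 (2 * m) p) = ↑(univ.filter fun c => c ∈ BadD 1 (2 * m) p) := by
            ext c
            simp
          conv_rhs => rw [h6, Set.ncard_coe_finset]
        have hp0 : (0 : ℝ) < p := by exact_mod_cast hp.out.pos
        rw [h5, div_le_iff₀ (by positivity)]
        refine h4.trans (mul_le_mul_of_nonneg_right ?_ (by positivity))
        have h7 : ((Pool.Agent.Y722.HS.Delta 1 (2 * m)).totalDegree : ℝ) ≤ C₀ := by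
          rw [hC₀]
          exact le_abs_self _
        have h8 : ((Pool.Agent.Y722.HS.Delta 1 (2 * m)).totalDegree : ℝ) / p ≤ C₀ / p := div_le_div_of_nonneg_right h7 hp0.le
        refine h8.trans ?_
        have h9 : C₀ / p = C₀ * (1 / (p : ℝ)) := by ring
        rw [h9]
        refine mul_le_mul_of_nonneg_left ?_ hC₀0
        have h10 : (p : ℝ) = sp p ^ 2 := by rw [sp_sq]
        rw [h10]
        exact inv_sp_le (by omega)
      have h3 : av g - (tgt J VD MD (fun _ : Fin r => ()) f - if ∑ i, f i = 2 * m then 1 else 0) =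
          (av (fun c : Mon 1 (2 * m) → ZMod p => ∏ i, XE (f i) c) - tgt J VD MD (fun _ : Fin r => ()) f) -
            (av g1 - if ∑ i, f i = 2 * m then 1 else 0) + av g2 - av g3 := by
        rw [hav]
        ring
      rw [h3]
      refine (abs_sub _ _).trans ((add_le_add (abs_add_le _ _) le_rfl).trans ?_)
      have h4 := abs_sub (av (fun c : Mon 1 (2 * m) → ZMod p => ∏ i, XE (f i) c) - tgt J VD MD (fun _ : Fin r => ()) f)
        (av g1 - if ∑ i, f i = 2 * m then (1 : ℝ) else 0)
      have h5 : C * (1 / sp p) = K₀ * (1 / sp p) + A ^ r * (1 / sp p) + (2 * B + 1 + 1) * (1 / sp p) + R ^ r * (r * (K + 3)) * (1 / sp p) +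
          A ^ r * C₀ * (1 / sp p) := by
        rw [hC]
        ring
      rw [h5]
      have h6 : 0 ≤ A ^ r * (1 / sp p) := by positivity
      linarith
    · -- odd weight
      have hWo := Nat.not_even_iff_odd.1 hW
      obtain ⟨a, ha0, ha⟩ := exists_non h2
      have e2 : av g = 0 := by
        refine av_odd a ha0 g fun c => ?_
        rw [hg]
        dsimp only
        by_cases h3 : c ∈ BadD 1 (2 * m) p
        · rw [if_pos h3, if_pos ((bad_scl a ha0 c).2 h3), neg_zero]
        · rw [if_neg h3, if_neg fun h4 => h3 ((bad_scl a ha0 c).1 h4)]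
          have h4 : ∀ i, TD (f i) (fun ν => a * c ν) = (-1) ^ f i * TD (f i) c := by
            intro i
            rw [TD_tw h2 (f i) (by have := hf i; rw [mem_Icc] at this; omega), ha]
            push_cast
            rfl
          rw [prod_congr rfl fun i _ => h4 i, prod_tw, hWo.neg_one_pow, neg_one_mul]
      have e3 : av (fun c : Mon 1 (2 * m) → ZMod p => ∏ i, XE (f i) c) = 0 := by
        refine av_odd a ha0 _ fun c => ?_
        have h4 : ∀ i, XE (f i) (fun ν => a * c ν) = (-1) ^ f i * XE (f i) c :=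
          fun i => XE_tw h2 (f i) (by have := hf i; rw [mem_Icc] at this; omega) a ha c
        rw [prod_congr rfl fun i _ => h4 i, prod_tw, hWo.neg_one_pow, neg_one_mul]
      rw [e3] at e1
      have h3 : ∑ i, f i ≠ 2 * m := by
        intro h4
        apply hW
        rw [h4]
        exact even_two_mul m
      rw [e2, if_neg h3, sub_zero]
      refine e1.trans (mul_le_mul_of_nonneg_right ?_ hε0.le)
      rw [hC]
      linarith
  rw [hg] at goal1 hsup
  exact ⟨goal1, fun c => (hsup c).trans hAC'⟩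

end Pool.Agent.W2helper48.JW
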