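import Pool.Agent.W2helper48.JT.Dbl

/-!
# Binary forms and polynomials
-/

set_option autoImplicit false
set_option linter.unusedSectionVars false

namespace Pool.Agent.W2helper48.JW

open Finset Function Polynomial
open Pool.Agent.Y722.HS (Mon mev form)
open Pool.Agent.W2helper48.JT

section

variable {δ : ℕ} {R : Type} [CommRing R]

/-- the exponent of the second variable -/
def ex (ν : Mon 1 δ) : ℕ := (ν.1 1 : ℕ)

lemma ex_le (ν : Mon 1 δ) : ex ν ≤ δ := by
  have := (ν.1 1).2
  unfold ex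
  omega

lemma ex_add (ν : Mon 1 δ) : (ν.1 0 : ℕ) + ex ν = δ := by
  have h := ν.2
  rw [Fin.sum_univ_two] at h
  exact h

lemma ex_inj : Injective (ex (δ := δ)) := by
  intro a b h
  have ha := ex_add a
  have hb := ex_add b
  apply Subtype.ext
  funext i
  apply Fin.ext
  fin_cases i
  · show (a.1 0 : ℕ) = (b.1 0 : ℕ)
    omega
  · exact h

/-- the monomial with a given exponent -/
def mk (k : ℕ) (hk : k ≤ δ) : Mon 1 δ := ⟨![⟨δ - k, by omega⟩, ⟨k, by omega⟩], by
  rw [Fin.sum_univ_two]
  show δ - k + k = δ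
  omega⟩

lemma ex_mk (k : ℕ) (hk : k ≤ δ) : ex (mk k hk) = k := rfl

/-- the polynomial `F(1, x)` -/
noncomputable def pol (c : Mon 1 δ → R) : R[X] := ∑ ν, C (c ν) * X ^ ex ν

lemma coeff_pol (c : Mon 1 δ → R) (ν : Mon 1 δ) : (pol c).coeff (ex ν) = c ν := by
  unfold pol
  rw [finsetSum_coeff, sum_eq_single ν]
  · rw [coeff_C_mul_X_pow, if_pos rfl]
  · intro μ _ hμ
    rw [coeff_C_mul_X_pow, if_neg fun h => hμ (ex_inj h).symm]
  · intro h
    exact absurd (mem_univ _) h

lemma pol_deg (c : Mon 1 δ → R) : (pol c).natDegree ≤ δ := by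
  unfold pol
  refine natDegree_sum_le_of_forall_le _ _ fun ν _ => ?_
  exact (natDegree_C_mul_X_pow_le _ _).trans (ex_le ν)

/-- the coefficients of a polynomial -/
noncomputable def cf (δ : ℕ) (f : R[X]) : Mon 1 δ → R := fun ν => f.coeff (ex ν)

lemma cf_pol (c : Mon 1 δ → R) : cf δ (pol c) = c := by
  funext ν
  exact coeff_pol c ν

lemma pol_cf (f : R[X]) (hf : f.natDegree ≤ δ) : pol (cf δ f) = f := by
  ext k
  by_cases hk : k ≤ δ
  · have h := coeff_pol (cf δ f) (mk k hk)
    rw [ex_mk] at h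
    rw [h]
    rfl
  · rw [coeff_eq_zero_of_natDegree_lt (by have := pol_deg (cf δ f); omega), coeff_eq_zero_of_natDegree_lt (by omega)]

lemma pol_inj : Injective (pol : (Mon 1 δ → R) → R[X]) := by
  intro a b h
  rw [← cf_pol a, ← cf_pol b, h]

lemma pol_zero : pol (0 : Mon 1 δ → R) = 0 := by
  unfold pol
  simp

lemma pol_mul (a : R) (c : Mon 1 δ → R) : pol (fun ν => a * c ν) = C a * pol c := by
  unfold pol
  rw [mul_sum]
  refine sum_congr rfl fun ν _ => ?_
  rw [C_mul, mul_assoc]

lemma pol_neg (c : Mon 1 δ → R) : pol (fun ν => - c ν) = - pol c := by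
  unfold pol
  rw [← sum_neg_distrib]
  refine sum_congr rfl fun ν _ => ?_
  rw [C_neg, neg_mul]

end

section

variable {p : ℕ} [hp : Fact p.Prime] {δ : ℕ}

lemma vl_one (c : Mon 1 δ → ZMod p) (x : Om p) : vl c ![1, x] = aeval x (pol c) := by
  unfold vl pol mev
  rw [map_sum]
  refine sum_congr rfl fun ν _ => ?_
  rw [map_mul, map_pow, aeval_C, aeval_X, Fin.prod_univ_two]
  simp [ex]

lemma vl_inf (c : Mon 1 δ → ZMod p) : vl c ![0, 1] = algebraMap (ZMod p) (Om p) ((pol c).coeff δ) := by
  have h1 : (pol c).coeff δ = c (mk δ le_rfl) := by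
    have := coeff_pol c (mk δ le_rfl)
    rwa [ex_mk] at this
  rw [h1]
  unfold vl mev
  rw [sum_eq_single (mk δ le_rfl)]
  · rw [Fin.prod_univ_two]
    have h2 : (((mk δ le_rfl : Mon 1 δ).1 0 : Fin (δ + 1)) : ℕ) = 0 := by
      have := ex_add (mk δ le_rfl : Mon 1 δ)
      rw [ex_mk] at this
      omega
    simp [h2]
  · intro μ _ hμ
    have h2 : ((μ.1 0 : Fin (δ + 1)) : ℕ) ≠ 0 := by
      intro h
      apply hμ
      apply ex_inj
      have := ex_add μ
      rw [ex_mk]
      omega
    rw [Fin.prod_univ_two]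
    simp [h2]
  · intro h
    exact absurd (mem_univ _) h

/-- the points of the projective line over the field with `p ^ j` elements -/
lemma PS_one (j : ℕ) (hj : j ≠ 0) (v : Fin 2 → Om p) : v ∈ PS 1 p j ↔ v = ![0, 1] ∨ ∃ x ∈ EE p j, v = ![1, x] := by
  have h1 : (1 : Om p) ∈ EE p j := by rw [mem_EE hj, one_pow]
  constructor
  · rintro ⟨⟨i, hi, hk⟩, hv⟩
    rw [per_iff hj] at hv
    fin_cases i
    · refine Or.inr ⟨v 1, hv 1, ?_⟩
      funext i
      fin_cases i
      · exact hi
      · rfl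
    · left
      funext i
      fin_cases i
      · exact hk 0 (by decide)
      · exact hi
  · rintro (rfl | ⟨x, hx, rfl⟩)
    · refine ⟨⟨1, rfl, fun k hk => ?_⟩, ?_⟩
      · have : k = 0 := by
          apply Fin.ext
          have h2 : (k : ℕ) < 1 := hk
          show (k : ℕ) = 0
          omega
        rw [this]
        rfl
      · rw [per_iff hj]
        intro i
        fin_cases i
        · exact zero_mem _
        · exact h1
    · refine ⟨⟨0, rfl, fun k hk => absurd hk (Nat.not_lt_zero _)⟩, ?_⟩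
      rw [per_iff hj]
      intro i
      fin_cases i
      · exact h1
      · exact hx

/-- sums over the points of the projective line -/
lemma sum_line (j : ℕ) (hj : j ≠ 0) (f : (Fin 2 → Om p) → ℝ) :
    ∑ v ∈ j.divisors.biUnion (fun d => MM 1 p d), f v = f ![0, 1] + ∑ x : EE p j, f ![1, (x : Om p)] := by
  classical
  have hinj : Injective fun x : EE p j => (![1, (x : Om p)] : Fin 2 → Om p) := by
    intro a b h
    exact Subtype.ext (congrFun h 1)
  have h1 : j.divisors.biUnion (fun d => MM 1 p d) = insert ![0, 1] (univ.image fun x : EE p j => (![1, (x : Om p)] : Fin 2 → Om p)) := by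
    ext v
    have h2 : v ∈ j.divisors.biUnion (fun d => MM 1 p d) ↔ v ∈ PS 1 p j := by
      rw [PS_eq j hj, mem_coe]
    rw [h2, PS_one j hj, mem_insert, mem_image]
    refine or_congr Iff.rfl ?_
    constructor
    · rintro ⟨x, hx, rfl⟩
      exact ⟨⟨x, hx⟩, mem_univ _, rfl⟩
    · rintro ⟨x, _, rfl⟩
      exact ⟨x, x.2, rfl⟩
  rw [h1, sum_insert, sum_image fun a _ b _ h => hinj h]
  intro h
  rw [mem_image] at h
  obtain ⟨x, _, hx⟩ := h
  have := congrFun hx 0
  simp at this

noncomputable instance (j : ℕ) : Fintype (GaloisField p j) := Fintype.ofFinite _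
noncomputable instance (j : ℕ) : DecidableEq (GaloisField p j) := Classical.decEq _

lemma char_GF (h2 : p ≠ 2) (j : ℕ) : ringChar (GaloisField p j) ≠ 2 := by
  rw [← Algebra.ringChar_eq (ZMod p) (GaloisField p j), ZMod.ringChar_zmod_n]
  exact h2

/-- the character -/
lemma qc_sg (h2 : p ≠ 2) (j : ℕ) (hj : j ≠ 0) (z : GaloisField p j) : qc j (sg p j z) = quadraticChar (GaloisField p j) z := by
  classical
  have h1 := quadraticChar_card_sqrts (char_GF h2 j) z
  have hsg : Injective (sg p j) := (sg p j).toRingHom.injective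
  unfold qc
  have h3 : (univ.filter fun y : EE p j => (y : Om p) ^ 2 = sg p j z).card = (univ.filter fun x : GaloisField p j => x ^ 2 = z).card := by
    refine (card_bij (fun x _ => (⟨sg p j x, (mem_range_sg j hj _).1 ⟨x, rfl⟩⟩ : EE p j)) (fun x hx => ?_) (fun a _ b _ h => ?_) (fun y hy => ?_)).symm
    · rw [mem_filter] at hx ⊢
      refine ⟨mem_univ _, ?_⟩
      show sg p j x ^ 2 = sg p j z
      rw [← map_pow, hx.2]
    · exact hsg (congrArg Subtype.val h)
    · obtain ⟨x, hx⟩ := (mem_range_sg j hj (y : Om p)).2 y.2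
      rw [mem_filter] at hy
      refine ⟨x, ?_, Subtype.ext hx⟩
      rw [mem_filter]
      refine ⟨mem_univ _, ?_⟩
      apply hsg
      rw [map_pow, hx]
      exact hy.2
  rw [h3]
  have h4 : ((univ.filter fun x : GaloisField p j => x ^ 2 = z).card : ℤ) = quadraticChar (GaloisField p j) z + 1 := by
    rw [← h1]
    congr 2
    ext x
    simp
  have h5 : ((univ.filter fun x : GaloisField p j => x ^ 2 = z).card : ℝ) = (quadraticChar (GaloisField p j) z : ℝ) + 1 := by exact_mod_cast h4
  rw [h5, add_sub_cancel_right]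

/-- **the normalised sum as a character sum** -/
lemma TD_eq (h2 : p ≠ 2) (j : ℕ) (hj : j ≠ 0) (c : Mon 1 δ → ZMod p) :
    TD j c = (qc j (algebraMap (ZMod p) (Om p) ((pol c).coeff δ)) +
      ∑ x : GaloisField p j, (quadraticChar (GaloisField p j) (aeval x (pol c)) : ℝ)) / sp p ^ j := by
  unfold TD sD
  rw [sum_line j hj, vl_inf, mul_one]
  congr 2
  have h1 : ∀ x : EE p j, qc j (vl c ![1, (x : Om p)]) = qc j (aeval (x : Om p) (pol c)) := fun x => by rw [vl_one]
  rw [sum_congr rfl fun x _ => h1 x]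
  have h3 : ∑ x : EE p j, qc j (aeval (x : Om p) (pol c)) = ∑ y : GaloisField p j, qc j (aeval (sg p j y) (pol c)) := by
    rw [← Equiv.sum_comp (eqE j hj)]
    rfl
  rw [h3]
  refine sum_congr rfl fun y _ => ?_
  rw [← qc_sg h2 j hj, aeval_algHom_apply]

end

end Pool.Agent.W2helper48.JW
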