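import Pool.Agent.W2helper48.JW.Sqc
import Pool.Agent.W2helper48.JT.DblG

/-!
# Constant multiples of squares are singular
-/

set_option autoImplicit false
set_option linter.unusedSectionVars false

namespace Pool.Agent.W2helper48.JW

open Finset Function Polynomial
open Pool.Agent.Y722.HS (Mon mev form IsSmooth eval_form)
open Pool.Agent.W2helper48.JT

section

variable {p : ℕ} [hp : Fact p.Prime] {δ m : ℕ}

lemma vl_hom (c : Mon 1 δ → ZMod p) (v : Fin 2 → Om p) (hv : v 0 ≠ 0) : vl c v = v 0 ^ δ * aeval (v 1 / v 0) (pol c) := by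
  rw [← vl_one]
  unfold vl mev
  rw [mul_sum]
  refine sum_congr rfl fun ν _ => ?_
  have h := ex_add ν
  rw [Fin.prod_univ_two, Fin.prod_univ_two]
  have h1 : v 0 ^ δ = v 0 ^ (ν.1 0 : ℕ) * v 0 ^ (ν.1 1 : ℕ) := by
    rw [← pow_add]
    congr 1
    exact h.symm
  rw [h1]
  simp only [Matrix.cons_val_zero, Matrix.cons_val_one, one_pow, one_mul, div_pow]
  field_simp

lemma vl_hom0 (c : Mon 1 δ → ZMod p) (v : Fin 2 → Om p) (hv : v 0 = 0) : vl c v = v 1 ^ δ * algebraMap (ZMod p) (Om p) ((pol c).coeff δ) := by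
  have h1 : (pol c).coeff δ = c (mk δ le_rfl) := by
    have := coeff_pol c (mk δ le_rfl)
    rwa [ex_mk] at this
  rw [h1]
  unfold vl mev
  rw [sum_eq_single (mk δ le_rfl)]
  · rw [Fin.prod_univ_two]
    have h2 : (((mk δ le_rfl : Mon 1 δ).1 0 : Fin (δ + 1)) : ℕ) = 0 := by
      have := ex_add (mk δ le_rfl : Mon 1 δ)
      rw [ex_mk] at this
      omega
    have h3 : (((mk δ le_rfl : Mon 1 δ).1 1 : Fin (δ + 1)) : ℕ) = δ := rfl
    rw [h2, h3, pow_zero, one_mul, mul_comm]
  · intro μ _ hμ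
    have h2 : ((μ.1 0 : Fin (δ + 1)) : ℕ) ≠ 0 := by
      intro h
      apply hμ
      apply ex_inj
      have := ex_add μ
      rw [ex_mk]
      omega
    rw [Fin.prod_univ_two, hv, zero_pow h2]
    ring
  · intro h
    exact absurd (mem_univ _) h

/-- the values of a constant multiple of a square -/
lemma vl_ph (a : ZMod p) (u : Mon 1 m → ZMod p) (v : Fin 2 → Om p) : vl (ph a u) v = algebraMap (ZMod p) (Om p) a * vl u v ^ 2 := by
  by_cases hv : v 0 = 0
  · rw [vl_hom0 _ v hv, vl_hom0 _ v hv, pol_ph, coeff_C_mul, map_mul, pow_mul', mul_pow, ← map_pow]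
    have h1 : (pol u ^ 2).coeff (2 * m) = (pol u).coeff m ^ 2 := coeff_pow_of_natDegree_le (pol_deg u)
    rw [h1]
    ring
  · rw [vl_hom _ v hv, vl_hom _ v hv, pol_ph, map_mul, map_pow, aeval_C, pow_mul', mul_pow]
    ring

lemma eval_map_form (c : Mon 1 δ → ZMod p) (v : Fin 2 → Om p) :
    MvPolynomial.eval v (MvPolynomial.map (algebraMap (ZMod p) (AlgebraicClosure (ZMod p))) (form c)) = vl c v := by
  rw [MvPolynomial.eval_map]
  unfold form vl mev
  rw [MvPolynomial.eval₂_sum]
  refine sum_congr rfl fun ν _ => ?_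
  rw [MvPolynomial.eval₂_mul, MvPolynomial.eval₂_C, MvPolynomial.eval₂_prod]
  congr 1
  refine prod_congr rfl fun i _ => ?_
  rw [MvPolynomial.eval₂_pow, MvPolynomial.eval₂_X]

lemma map_ph (a : ZMod p) (u : Mon 1 m → ZMod p) : MvPolynomial.map (algebraMap (ZMod p) (AlgebraicClosure (ZMod p))) (form (ph a u)) =
    MvPolynomial.C (algebraMap (ZMod p) (Om p) a) * MvPolynomial.map (algebraMap (ZMod p) (AlgebraicClosure (ZMod p))) (form u) ^ 2 := by
  apply MvPolynomial.funext
  intro v
  rw [eval_map_form, map_mul, map_pow, MvPolynomial.eval_C, eval_map_form, vl_ph]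

lemma ph_bad (hm : 1 ≤ m) (a : ZMod p) (u : Mon 1 m → ZMod p) :
    ¬ IsSmooth (MvPolynomial.map (algebraMap (ZMod p) (AlgebraicClosure (ZMod p))) (form (ph a u))) := by
  rw [map_ph]
  obtain ⟨v, hv, hv0⟩ : ∃ v : Fin 2 → Om p, v ≠ 0 ∧ vl u v = 0 := by
    by_cases h : (pol u).coeff m = 0
    · refine ⟨![0, 1], fun h1 => ?_, ?_⟩
      · have := congrFun h1 1
        simp at this
      · rw [vl_inf, h, map_zero]
    · have h1 : (pol u).natDegree = m := le_antisymm (pol_deg u) (le_natDegree_of_ne_zero h)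
      have h2 : (pol u).degree ≠ 0 := by
        intro h3
        have := natDegree_eq_zero_iff_degree_le_zero.2 h3.le
        omega
      obtain ⟨x, hx⟩ := IsAlgClosed.exists_aeval_eq_zero (Om p) (pol u) h2
      refine ⟨![1, x], fun h3 => ?_, ?_⟩
      · have := congrFun h3 0
        simp at this
      · rw [vl_one, hx]
  obtain ⟨G, hG⟩ : ∃ G, G = MvPolynomial.map (algebraMap (ZMod p) (AlgebraicClosure (ZMod p))) (form u) := ⟨_, rfl⟩
  have hGv : MvPolynomial.eval v G = 0 := by rw [hG, eval_map_form, hv0]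
  rw [← hG]
  intro hs
  obtain ⟨i, hi⟩ := hs v hv (by rw [map_mul, map_pow, hGv]; ring)
  apply hi
  rw [pow_two, Derivation.leibniz, Derivation.leibniz]
  simp [hGv]

/-- constant multiples of squares are singular -/
lemma Sq_bad (hm : 1 ≤ m) (c : Mon 1 (2 * m) → ZMod p) (hc : c ∈ Sq p (2 * m)) : c ∈ BadH 1 (2 * m) p := by
  have h1 : ∃ (a : ZMod p) (u : Mon 1 m → ZMod p), c = ph a u := by
    by_cases hc0 : c = 0
    · refine ⟨0, 0, ?_⟩
      apply pol_inj
      rw [hc0, pol_ph, pol_zero]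
      simp
    · obtain ⟨a, h, hah⟩ := hc
      have hpc : pol c ≠ 0 := by
        intro h1
        apply hc0
        apply pol_inj
        rw [h1, pol_zero]
      have ha0 : a ≠ 0 := by
        rintro rfl
        apply hpc
        rw [hah]
        simp
      have hdeg : h.natDegree ≤ m := by
        have h3 : (pol c).natDegree = 2 * h.natDegree := by
          rw [hah, natDegree_C_mul ha0, natDegree_pow]
        have := pol_deg c
        omega
      refine ⟨a, cf m h, ?_⟩
      apply pol_inj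
      rw [pol_ph, pol_cf h hdeg, hah]
  obtain ⟨a, u, rfl⟩ := h1
  intro hall
  exact ph_bad hm a u (hall hp)

end

end Pool.Agent.W2helper48.JW
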