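import Pool.Agent.W2helper48.JW.Tw

/-!
# The number of the constant multiples of squares
-/

set_option autoImplicit false
set_option linter.unusedSectionVars false

namespace Pool.Agent.W2helper48.JW

open Finset Function Polynomial
open Pool.Agent.Y722.HS (Mon mev form)
open Pool.Agent.W2helper48.JT

/-- the monomials in two variables -/
def eqM (m : ℕ) : Mon 1 m ≃ Fin (m + 1) where
  toFun ν := ν.1 1
  invFun k := mk (k : ℕ) (by omega)
  left_inv ν := ex_inj rfl
  right_inv k := Fin.ext rfl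

lemma card_Mon1 (m : ℕ) : Fintype.card (Mon 1 m) = m + 1 := by
  rw [Fintype.card_congr (eqM m), Fintype.card_fin]

section

variable {p : ℕ} [hp : Fact p.Prime] {m : ℕ}

lemma card_vecs (m : ℕ) : Fintype.card (Mon 1 m → ZMod p) = p ^ (m + 1) := by
  rw [Fintype.card_fun, ZMod.card, card_Mon1]

/-- the form `a G ^ 2` -/
noncomputable def ph (a : ZMod p) (u : Mon 1 m → ZMod p) : Mon 1 (2 * m) → ZMod p := cf (2 * m) (C a * pol u ^ 2)

lemma pol_ph (a : ZMod p) (u : Mon 1 m → ZMod p) : pol (ph a u) = C a * pol u ^ 2 := by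
  unfold ph
  refine pol_cf _ ((natDegree_C_mul_le _ _).trans ?_)
  refine natDegree_pow_le.trans ?_
  exact Nat.mul_le_mul_left 2 (pol_deg u)

lemma zero_Sq (δ : ℕ) : (0 : Mon 1 δ → ZMod p) ∈ Sq p δ := ⟨0, 0, by rw [pol_zero]; simp⟩

/-- a normal form -/
lemma normal (h2 : p ≠ 2) (ν : ZMod p) (hν : ¬ IsSquare ν) (c : Mon 1 (2 * m) → ZMod p) (hc : c ∈ Sq p (2 * m)) (hc0 : c ≠ 0) :
    ∃ a ∈ ({1, ν} : Finset (ZMod p)), ∃ u : Mon 1 m → ZMod p, u ≠ 0 ∧ ph a u = c := by
  classical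
  obtain ⟨a, h, hah⟩ := hc
  have hpc : pol c ≠ 0 := by
    intro h1
    apply hc0
    apply pol_inj
    rw [h1, pol_zero]
  have ha0 : a ≠ 0 := by
    rintro rfl
    apply hpc
    rw [hah]
    simp
  have hh0 : h ≠ 0 := by
    rintro rfl
    apply hpc
    rw [hah]
    simp
  have hν0 : ν ≠ 0 := by
    rintro rfl
    exact hν ⟨0, by ring⟩
  have hch : ringChar (ZMod p) ≠ 2 := by
    rw [ZMod.ringChar_zmod_n]
    exact h2
  have hdeg : h.natDegree ≤ m := by
    have h3 : (pol c).natDegree = 2 * h.natDegree := by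
      rw [hah, natDegree_C_mul ha0, natDegree_pow]
    have := pol_deg c
    omega
  -- scaling
  have key : ∀ (b : ZMod p) (s : ZMod p), s ≠ 0 → a = b * s ^ 2 → ∃ u : Mon 1 m → ZMod p, u ≠ 0 ∧ ph b u = c := by
    intro b s hs hab
    have h3 : (C s * h).natDegree ≤ m := (natDegree_C_mul_le _ _).trans hdeg
    refine ⟨cf m (C s * h), fun h4 => ?_, ?_⟩
    · have h5 := pol_cf (C s * h) h3
      rw [h4, pol_zero] at h5
      have h6 : C s * h ≠ 0 := mul_ne_zero (C_ne_zero.2 hs) hh0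
      exact h6 h5.symm
    · apply pol_inj
      rw [pol_ph, pol_cf _ h3, hah, hab, C_mul, C_pow]
      ring
  by_cases hsq : IsSquare a
  · obtain ⟨s, hs⟩ := hsq
    have hs0 : s ≠ 0 := by
      rintro rfl
      apply ha0
      rw [hs, zero_mul]
    obtain ⟨u, hu⟩ := key 1 s hs0 (by rw [hs]; ring)
    exact ⟨1, mem_insert_self _ _, u, hu⟩
  · have h3 : IsSquare (a * ν) := by
      have e1 := (quadraticChar_neg_one_iff_not_isSquare (F := ZMod p) (a := a)).2 hsq
      have e2 := (quadraticChar_neg_one_iff_not_isSquare (F := ZMod p) (a := ν)).2 hν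
      have e3 : quadraticChar (ZMod p) (a * ν) = 1 := by
        rw [map_mul, e1, e2]
        norm_num
      exact (quadraticChar_one_iff_isSquare (mul_ne_zero ha0 hν0)).1 e3
    obtain ⟨t, ht⟩ := h3
    have ht0 : t ≠ 0 := by
      rintro rfl
      rw [zero_mul] at ht
      exact mul_ne_zero ha0 hν0 ht
    obtain ⟨u, hu⟩ := key ν (t * ν⁻¹) (mul_ne_zero ht0 (inv_ne_zero hν0)) (by
      have : ν * (t * ν⁻¹) ^ 2 = (t * t) * (ν * ν⁻¹) * ν⁻¹ := by ring
      rw [this, mul_inv_cancel₀ hν0, mul_one, ← ht, mul_assoc, mul_inv_cancel₀ hν0, mul_one])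
    exact ⟨ν, mem_insert_of_mem (mem_singleton_self _), u, hu⟩

/-- the fibres -/
lemma ph_eq (ν : ZMod p) (hν : ¬ IsSquare ν) {a b : ZMod p} (ha : a ∈ ({1, ν} : Finset (ZMod p))) (hb : b ∈ ({1, ν} : Finset (ZMod p)))
    {u v : Mon 1 m → ZMod p} (hu : u ≠ 0) (h : ph a u = ph b v) : a = b ∧ (v = u ∨ v = -u) := by
  classical
  have hν0 : ν ≠ 0 := by
    rintro rfl
    exact hν ⟨0, by ring⟩
  have hpu : pol u ≠ 0 := by
    intro h1
    apply hu
    apply pol_inj
    rw [h1, pol_zero]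
  have h3 : C a * pol u ^ 2 = C b * pol v ^ 2 := by rw [← pol_ph, ← pol_ph, h]
  have h4 : a * (pol u).leadingCoeff ^ 2 = b * (pol v).leadingCoeff ^ 2 := by
    have := congrArg leadingCoeff h3
    rwa [leadingCoeff_mul, leadingCoeff_mul, leadingCoeff_C, leadingCoeff_C, leadingCoeff_pow, leadingCoeff_pow] at this
  have hl : (pol u).leadingCoeff ≠ 0 := leadingCoeff_ne_zero.2 hpu
  have hab : a = b := by
    rw [mem_insert, mem_singleton] at ha hb
    rcases ha with rfl | rfl <;> rcases hb with rfl | rfl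
    · rfl
    · exfalso
      rw [one_mul] at h4
      by_cases hv : (pol v).leadingCoeff = 0
      · rw [hv] at h4
        simp at h4
        exact hpu h4
      · apply hν
        refine ⟨(pol u).leadingCoeff * (pol v).leadingCoeff⁻¹, ?_⟩
        have : (pol u).leadingCoeff * (pol v).leadingCoeff⁻¹ * ((pol u).leadingCoeff * (pol v).leadingCoeff⁻¹) =
          (pol u).leadingCoeff ^ 2 * ((pol v).leadingCoeff⁻¹) ^ 2 := by ring
        rw [this, h4, mul_assoc, ← mul_pow, mul_inv_cancel₀ hv, one_pow, mul_one]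
    · exfalso
      rw [one_mul] at h4
      apply hν
      refine ⟨(pol v).leadingCoeff * (pol u).leadingCoeff⁻¹, ?_⟩
      have : (pol v).leadingCoeff * (pol u).leadingCoeff⁻¹ * ((pol v).leadingCoeff * (pol u).leadingCoeff⁻¹) =
          (pol v).leadingCoeff ^ 2 * ((pol u).leadingCoeff⁻¹) ^ 2 := by ring
      rw [this, ← h4, mul_assoc, ← mul_pow, mul_inv_cancel₀ hl, one_pow, mul_one]
    · rfl
  refine ⟨hab, ?_⟩
  have hb0 : b ≠ 0 := by
    rw [mem_insert, mem_singleton] at hb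
    rcases hb with rfl | rfl
    · exact one_ne_zero
    · exact hν0
  rw [hab] at h3
  have h5 := mul_left_cancel₀ (C_ne_zero.2 hb0) h3
  rcases sq_eq_sq_iff_eq_or_eq_neg.1 h5 with h6 | h6
  · exact Or.inl (pol_inj h6).symm
  · right
    apply pol_inj
    have h7 : pol (-u) = - pol u := pol_neg u
    rw [h7, h6, neg_neg]

/-- **the number of the constant multiples of squares** -/
lemma card_Sq (h2 : p ≠ 2) (S : Finset (Mon 1 (2 * m) → ZMod p)) (hS : ∀ c, c ∈ S ↔ c ∈ Sq p (2 * m) ∧ c ≠ 0) : S.card + 1 = p ^ (m + 1) := by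
  classical
  have hch : ringChar (ZMod p) ≠ 2 := by
    rw [ZMod.ringChar_zmod_n]
    exact h2
  obtain ⟨ν, hν⟩ := FiniteField.exists_nonsquare hch
  have hν1 : (1 : ZMod p) ≠ ν := by
    rintro rfl
    exact hν ⟨1, by ring⟩
  have hν0 : ν ≠ 0 := by
    rintro rfl
    exact hν ⟨0, by ring⟩
  obtain ⟨P, hP⟩ : ∃ P : Finset (ZMod p × (Mon 1 m → ZMod p)), P = ({1, ν} : Finset (ZMod p)) ×ˢ (univ.erase 0) := ⟨_, rfl⟩
  have hPc : P.card = 2 * (p ^ (m + 1) - 1) := by
    rw [hP, card_product, card_pair hν1, card_erase_of_mem (mem_univ _), card_univ, card_vecs]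
  have hne0 : ∀ a ∈ ({1, ν} : Finset (ZMod p)), a ≠ 0 := by
    intro a ha
    rw [mem_insert, mem_singleton] at ha
    rcases ha with rfl | rfl
    · exact one_ne_zero
    · exact hν0
  have hmaps : ∀ x ∈ P, ph x.1 x.2 ∈ S := by
    intro x hx
    rw [hP, mem_product] at hx
    rw [hS]
    refine ⟨⟨x.1, pol x.2, pol_ph _ _⟩, fun h => ?_⟩
    have h3 : C x.1 * pol x.2 ^ 2 = 0 := by rw [← pol_ph, h, pol_zero]
    have h4 : pol x.2 ≠ 0 := by
      intro h5
      apply (mem_erase.1 hx.2).1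
      apply pol_inj
      rw [h5, pol_zero]
    exact mul_ne_zero (C_ne_zero.2 (hne0 _ hx.1)) (pow_ne_zero 2 h4) h3
  have h3 := card_eq_sum_card_fiberwise (f := fun x : ZMod p × (Mon 1 m → ZMod p) => ph x.1 x.2) (s := P) (t := S) hmaps
  have h4 : ∀ c ∈ S, (P.filter fun x => ph x.1 x.2 = c).card = 2 := by
    intro c hc
    obtain ⟨hc1, hc0⟩ := (hS c).1 hc
    obtain ⟨a, ha, u, hu, hau⟩ := normal h2 ν hν c hc1 hc0
    have hneg : u ≠ -u := by
      intro h5
      apply hu
      funext i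
      have h6 : u i = - u i := congrFun h5 i
      have h7 : (2 : ZMod p) * u i = 0 := by linear_combination h6
      rcases mul_eq_zero.1 h7 with h8 | h8
      · exact absurd h8 (Ring.two_ne_zero hch)
      · exact h8
    have h5 : (P.filter fun x => ph x.1 x.2 = c) = {(a, u), (a, -u)} := by
      ext ⟨b, v⟩
      have e1 : (b, v) ∈ ({(a, u), (a, -u)} : Finset (ZMod p × (Mon 1 m → ZMod p))) ↔ (b, v) = (a, u) ∨ (b, v) = (a, -u) := by
        rw [mem_insert, mem_singleton]
      rw [mem_filter, hP, mem_product, e1]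
      constructor
      · rintro ⟨⟨hb, hv⟩, hbv⟩
        obtain ⟨h6, h7⟩ := ph_eq ν hν ha hb hu (hau.trans hbv.symm)
        rcases h7 with h7 | h7
        · left
          exact Prod.ext h6.symm h7
        · right
          exact Prod.ext h6.symm h7
      · rintro (h6 | h6)
        · rw [Prod.mk.injEq] at h6
          obtain ⟨rfl, rfl⟩ := h6
          exact ⟨⟨ha, mem_erase.2 ⟨hu, mem_univ _⟩⟩, hau⟩
        · rw [Prod.mk.injEq] at h6
          obtain ⟨rfl, rfl⟩ := h6
          refine ⟨⟨ha, mem_erase.2 ⟨neg_ne_zero.2 hu, mem_univ _⟩⟩, ?_⟩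
          show ph b (-u) = c
          rw [← hau]
          apply pol_inj
          have h7 : pol (-u) = - pol u := pol_neg u
          rw [pol_ph, pol_ph, h7, neg_sq]
    rw [h5, card_pair]
    intro h6
    rw [Prod.mk.injEq] at h6
    exact hneg h6.2
  rw [hPc, sum_congr rfl h4, sum_const, smul_eq_mul] at h3
  have h5 : 1 ≤ p ^ (m + 1) := Nat.one_le_iff_ne_zero.2 (pow_ne_zero _ hp.out.ne_zero)
  omega

end

end Pool.Agent.W2helper48.JW
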