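import Pool.Agent.W2helper48.JW.Weil

/-!
# Twisting, and the squares
-/

set_option autoImplicit false
set_option linter.unusedSectionVars false

namespace Pool.Agent.W2helper48.JW

open Finset Function Polynomial
open Pool.Agent.Y722.HS (Mon mev form)
open Pool.Agent.W2helper48.JT

section

variable {p : ℕ} [hp : Fact p.Prime] {δ : ℕ}

lemma half_pow (h2 : p ≠ 2) (j : ℕ) : p ^ j / 2 = (p / 2) * ∑ i ∈ range j, p ^ i := by
  have hodd := hp.out.odd_of_ne_two h2
  obtain ⟨k, hk⟩ := hodd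
  have h1 : (p - 1) * ∑ i ∈ range j, p ^ i + 1 = p ^ j := by
    have := Nat.geomSum_eq hp.out.two_le j
    rw [this, Nat.mul_div_cancel']
    · have : 1 ≤ p ^ j := Nat.one_le_iff_ne_zero.2 (pow_ne_zero _ hp.out.ne_zero)
      omega
    · have := Nat.sub_dvd_pow_sub_pow p 1 j
      rwa [one_pow] at this
  have h3 : p / 2 = k := by omega
  have h4 : p - 1 = 2 * k := by omega
  rw [h3, ← h1, h4]
  obtain ⟨s, hs⟩ : ∃ s, s = ∑ i ∈ range j, p ^ i := ⟨_, rfl⟩
  rw [← hs]
  have : 2 * k * s = 2 * (k * s) := by ring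
  omega

lemma parity (h2 : p ≠ 2) (j : ℕ) : Even (∑ i ∈ range j, p ^ i) ↔ Even j := by
  have hodd := hp.out.odd_of_ne_two h2
  induction j with
  | zero => simp
  | succ j ih =>
    have h3 : ¬ Even (p ^ j) := Nat.not_even_iff_odd.2 hodd.pow
    have h4 : Even (∑ i ∈ range (j + 1), p ^ i) ↔ (Even (∑ i ∈ range j, p ^ i) ↔ Even (p ^ j)) := by
      rw [sum_range_succ]
      exact Nat.even_add
    have h5 : Even (j + 1) ↔ ¬ Even j := Nat.even_add_one
    tauto

/-- the character of an element of the prime field -/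
lemma chi_pow (h2 : p ≠ 2) (j : ℕ) (hj : j ≠ 0) (a : ZMod p) :
    quadraticChar (GaloisField p j) (algebraMap (ZMod p) (GaloisField p j) a) = quadraticChar (ZMod p) a ^ j := by
  have hch : ringChar (ZMod p) ≠ 2 := by
    rw [ZMod.ringChar_zmod_n]
    exact h2
  by_cases ha : a = 0
  · rw [ha, map_zero, quadraticChar_zero, quadraticChar_zero, zero_pow hj]
  have ha' : algebraMap (ZMod p) (GaloisField p j) a ≠ 0 := by
    rw [Ne, map_eq_zero_iff _ (algebraMap (ZMod p) (GaloisField p j)).injective]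
    exact ha
  have h3 := quadraticChar_eq_pow_of_char_ne_two' (char_GF h2 j) (algebraMap (ZMod p) (GaloisField p j) a)
  have h4 := quadraticChar_eq_pow_of_char_ne_two' hch a
  have h5 : Fintype.card (GaloisField p j) = p ^ j := by
    rw [← Nat.card_eq_fintype_card, card_GF j hj]
  rw [h5, half_pow h2 j, pow_mul, ← map_pow] at h3
  rw [ZMod.card] at h4
  rw [← h4, map_intCast] at h3
  have hone : (1 : GaloisField p j) ≠ -1 := fun h => by
    have := Ring.neg_one_ne_one_of_char_ne_two (char_GF h2 j)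
    exact this h.symm
  have hpar := parity h2 j
  rcases quadraticChar_dichotomy ha with h | h <;> rcases quadraticChar_dichotomy ha' with h' | h' <;> rw [h, h'] at h3 ⊢
  · rw [one_pow]
  · exfalso
    push_cast at h3
    rw [one_pow] at h3
    exact hone h3.symm
  · by_cases he : Even j
    · rw [he.neg_one_pow]
    · exfalso
      have h6 : Odd (∑ i ∈ range j, p ^ i) := Nat.not_even_iff_odd.1 fun h => he (hpar.1 h)
      push_cast at h3
      rw [h6.neg_one_pow] at h3
      exact hone h3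
  · by_cases he : Even j
    · exfalso
      have h6 : Even (∑ i ∈ range j, p ^ i) := hpar.2 he
      push_cast at h3
      rw [h6.neg_one_pow] at h3
      exact hone h3.symm
    · rw [(Nat.not_even_iff_odd.1 he).neg_one_pow]

lemma sg_alg (j : ℕ) (a : ZMod p) : sg p j (algebraMap (ZMod p) (GaloisField p j) a) = algebraMap (ZMod p) (Om p) a := by
  rw [AlgHom.commutes]

lemma qc_alg (h2 : p ≠ 2) (j : ℕ) (hj : j ≠ 0) (a : ZMod p) : qc j (algebraMap (ZMod p) (Om p) a) = ((quadraticChar (ZMod p) a : ℤ) : ℝ) ^ j := by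
  rw [← sg_alg j, qc_sg h2 j hj, chi_pow h2 j hj]
  push_cast
  rfl

/-- **twisting** -/
lemma TD_tw (h2 : p ≠ 2) (j : ℕ) (hj : j ≠ 0) (a : ZMod p) (c : Mon 1 δ → ZMod p) :
    TD j (fun ν => a * c ν) = ((quadraticChar (ZMod p) a : ℤ) : ℝ) ^ j * TD j c := by
  rw [TD_eq h2 j hj, TD_eq h2 j hj, ← mul_div_assoc]
  congr 1
  rw [pol_mul, coeff_C_mul, mul_add, qc_alg h2 j hj, qc_alg h2 j hj, map_mul]
  push_cast
  rw [mul_pow, mul_sum]
  congr 1
  refine sum_congr rfl fun x _ => ?_
  rw [map_mul, aeval_C, map_mul, chi_pow h2 j hj]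
  push_cast
  rfl

/-- **the squares** -/
lemma TD_sq (h2 : p ≠ 2) (j : ℕ) (hj : j ≠ 0) (c : Mon 1 δ → ZMod p) (a : ZMod p) (h : (ZMod p)[X]) (hc : pol c = C a * h ^ 2) (h0 : h ≠ 0) :
    |TD j c - ((quadraticChar (ZMod p) a : ℤ) : ℝ) ^ j * sp p ^ j| ≤ h.natDegree + 1 := by
  classical
  have hs := sp_pos p
  have hsj : 1 ≤ sp p ^ j := one_le_pow₀ (one_lt_sp p).le
  obtain ⟨χ, hχ⟩ : ∃ χ : ℝ, χ = ((quadraticChar (ZMod p) a : ℤ) : ℝ) ^ j := ⟨_, rfl⟩
  have hχ1 : |χ| ≤ 1 := by
    rw [hχ, ← qc_alg h2 j hj]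
    exact qc_abs j _
  -- zeros
  obtain ⟨Zs, hZs⟩ : ∃ Zs : Finset (GaloisField p j), Zs = univ.filter fun x => aeval x h = 0 := ⟨_, rfl⟩
  have hZc : Zs.card ≤ h.natDegree := by
    have h3 : h.map (algebraMap (ZMod p) (GaloisField p j)) ≠ 0 := by
      rwa [Ne, Polynomial.map_eq_zero]
    have h4 : Zs ⊆ (h.map (algebraMap (ZMod p) (GaloisField p j))).roots.toFinset := by
      intro x hx
      rw [hZs, mem_filter] at hx
      rw [Multiset.mem_toFinset, mem_roots h3, IsRoot.def, eval_map_algebraMap]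
      exact hx.2
    refine (card_le_card h4).trans ((Multiset.toFinset_card_le _).trans ((card_roots' _).trans ?_))
    exact natDegree_map_le
  have h3 : ∀ x : GaloisField p j, (quadraticChar (GaloisField p j) (aeval x (pol c)) : ℝ) = χ * (1 - if x ∈ Zs then 1 else 0) := by
    intro x
    rw [hc, map_mul, map_pow, aeval_C, map_mul, map_pow, chi_pow h2 j hj, hχ]
    push_cast
    congr 1
    by_cases hx : x ∈ Zs
    · rw [if_pos hx]
      rw [hZs, mem_filter] at hx
      rw [hx.2, quadraticChar_zero]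
      norm_num
    · rw [if_neg hx]
      have hx' : aeval x h ≠ 0 := by
        intro h4
        apply hx
        rw [hZs, mem_filter]
        exact ⟨mem_univ _, h4⟩
      have := quadraticChar_sq_one hx'
      rw [sub_zero]
      exact_mod_cast this
  have h4 : ∑ x : GaloisField p j, (quadraticChar (GaloisField p j) (aeval x (pol c)) : ℝ) = χ * (sp p ^ (2 * j) - Zs.card) := by
    rw [sum_congr rfl fun x _ => h3 x, ← mul_sum, sum_sub_distrib, sum_const, sum_ite_mem, univ_inter, sum_const, card_univ, nsmul_eq_mul,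
      nsmul_eq_mul, mul_one, mul_one]
    have h5 : Fintype.card (GaloisField p j) = p ^ j := by
      rw [← Nat.card_eq_fintype_card, card_GF j hj]
    rw [h5]
    push_cast
    rw [p_pow]
  obtain ⟨q, hq⟩ : ∃ q : ℝ, q = qc j (algebraMap (ZMod p) (Om p) ((pol c).coeff δ)) := ⟨_, rfl⟩
  have hq1 : |q| ≤ 1 := by
    rw [hq]
    exact qc_abs j _
  rw [TD_eq h2 j hj, h4, ← hχ, ← hq]
  have h5 : (q + χ * (sp p ^ (2 * j) - Zs.card)) / sp p ^ j - χ * sp p ^ j = (q - χ * Zs.card) / sp p ^ j := by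
    have : sp p ^ (2 * j) = sp p ^ j * sp p ^ j := by rw [two_mul, pow_add]
    rw [this]
    field_simp
    ring
  rw [h5, abs_div, abs_of_pos (by linarith : 0 < sp p ^ j)]
  refine (div_le_self (abs_nonneg _) hsj).trans ?_
  refine (abs_sub _ _).trans ?_
  rw [abs_mul, Nat.abs_cast]
  have h6 : (Zs.card : ℝ) ≤ h.natDegree := by exact_mod_cast hZc
  have h7 : |χ| * (Zs.card : ℝ) ≤ 1 * h.natDegree := mul_le_mul hχ1 h6 (Nat.cast_nonneg _) zero_le_one
  linarith

end

end Pool.Agent.W2helper48.JW
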