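import Pool.Agent.W2helper48.JW.Pol1
import Pool.Agent.H341R2.WeilSharp

/-!
# The Weil bound for binary forms
-/

set_option autoImplicit false
set_option linter.unusedSectionVars false

namespace Pool.Agent.W2helper48.JW

open Finset Function Polynomial
open Pool.Agent.Y722.HS (Mon mev form)
open Pool.Agent.W2helper48.JT

section

variable {p : ℕ} [hp : Fact p.Prime] {δ : ℕ}

variable (p δ) in
/-- the constant multiples of squares -/
def Sq : Set (Mon 1 δ → ZMod p) := {c | ∃ (a : ZMod p) (h : (ZMod p)[X]), pol c = C a * h ^ 2}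

lemma sqrt_card (j : ℕ) (hj : j ≠ 0) : Real.sqrt (Fintype.card (GaloisField p j)) = sp p ^ j := by
  have h1 : Fintype.card (GaloisField p j) = p ^ j := by
    rw [← Nat.card_eq_fintype_card, card_GF j hj]
  rw [h1]
  push_cast
  rw [p_pow, mul_comm, pow_mul]
  exact Real.sqrt_sq (pow_nonneg (sp_pos p).le _)

/-- not a constant multiple of a square over the extensions -/
lemma map_ne (h2 : p ≠ 2) (j : ℕ) (f : (ZMod p)[X]) (hns : ∀ (c : ZMod p) (h : (ZMod p)[X]), f ≠ C c * h ^ 2) :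
    ∀ (c : GaloisField p j) (h : (GaloisField p j)[X]), f.map (algebraMap (ZMod p) (GaloisField p j)) ≠ C c * h ^ 2 := by
  have hf0 : f ≠ 0 := by
    intro h
    apply hns 0 0
    rw [h]
    simp
  obtain ⟨a, ha⟩ : ∃ a, a = f.leadingCoeff := ⟨_, rfl⟩
  have ha0 : a ≠ 0 := by
    rw [ha]
    exact leadingCoeff_ne_zero.2 hf0
  obtain ⟨g, hg⟩ : ∃ g : (ZMod p)[X], g = C a⁻¹ * f := ⟨_, rfl⟩
  have hfg : f = C a * g := by
    rw [hg, ← mul_assoc, ← C_mul, mul_inv_cancel₀ ha0, C_1, one_mul]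
  have hgm : g.Monic := by
    rw [Monic, hg, leadingCoeff_mul, leadingCoeff_C, ← ha, inv_mul_cancel₀ ha0]
  have hgs : ∀ (c : ZMod p) (h : (ZMod p)[X]), g ≠ C c * h ^ 2 := by
    intro c h he
    apply hns (a * c) h
    rw [hfg, he, C_mul, mul_assoc]
  have hch : ringChar (ZMod p) ≠ 2 := by
    rw [ZMod.ringChar_zmod_n]
    exact h2
  intro c h he
  have h3 := Pool.Agent.H341R2.Sharp.map_ne_sq (E := GaloisField p j) hch hgm hgs ((algebraMap (ZMod p) (GaloisField p j) a)⁻¹ * c) h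
  apply h3
  have h4 : algebraMap (ZMod p) (GaloisField p j) a ≠ 0 := by
    rw [Ne, map_eq_zero_iff _ (algebraMap (ZMod p) (GaloisField p j)).injective]
    exact ha0
  rw [C_mul, mul_assoc, ← he, hfg, Polynomial.map_mul, map_C, ← mul_assoc, ← C_mul, inv_mul_cancel₀ h4, C_1, one_mul]

/-- **the Weil bound** -/
lemma weil_T (h2 : p ≠ 2) (j : ℕ) (hj : j ≠ 0) (c : Mon 1 δ → ZMod p) (hc : c ∉ Sq p δ) : |TD j c| ≤ δ + 1 := by
  have hs := sp_pos p
  have hsj : 1 ≤ sp p ^ j := one_le_pow₀ (one_lt_sp p).le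
  have hns : ∀ (a : ZMod p) (h : (ZMod p)[X]), pol c ≠ C a * h ^ 2 := fun a h he => hc ⟨a, h, he⟩
  have hd : 1 ≤ (pol c).natDegree := by
    by_contra h
    have h1 : (pol c).natDegree = 0 := by omega
    apply hns ((pol c).coeff 0) 1
    rw [one_pow, mul_one]
    exact eq_C_of_natDegree_eq_zero h1
  obtain ⟨f, hf⟩ : ∃ f, f = (pol c).map (algebraMap (ZMod p) (GaloisField p j)) := ⟨_, rfl⟩
  have hfd : f.natDegree = (pol c).natDegree := by
    rw [hf]
    exact natDegree_map _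
  have h3 := Pool.Agent.H341R2.Sharp.weil_sharp (char_GF h2 j) f (by rw [hfd]; exact hd) (by rw [hf]; exact map_ne h2 j (pol c) hns)
  rw [sqrt_card j hj, hfd] at h3
  have h4 : ∀ x : GaloisField p j, f.eval x = aeval x (pol c) := fun x => by
    rw [hf]
    exact eval_map_algebraMap _ _
  simp_rw [h4] at h3
  rw [TD_eq h2 j hj, abs_div, abs_of_pos (by linarith : 0 < sp p ^ j), div_le_iff₀ (by linarith)]
  refine (abs_add_le _ _).trans ?_
  have h5 := qc_abs (p := p) j (algebraMap (ZMod p) (Om p) ((pol c).coeff δ))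
  have h6 : ((pol c).natDegree : ℝ) ≤ δ := by exact_mod_cast pol_deg c
  have h7 : (((pol c).natDegree : ℝ) - 1) * sp p ^ j ≤ δ * sp p ^ j := mul_le_mul_of_nonneg_right (by linarith) (by linarith)
  have h8 : ((δ : ℝ) + 1) * sp p ^ j = δ * sp p ^ j + sp p ^ j := by ring
  rw [h8]
  linarith

end

end Pool.Agent.W2helper48.JW
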